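import Pool.Agent.H919R4.ZS.Defs

/-!
# Complexes with mirrors, the reflection construction `𝒰(W, Y)`, weight functions

`(W, S)` is a Coxeter system, `cs : CoxeterSystem M W`, `S = {cs.simple b | b ∈ B}`.
-/

set_option autoImplicit false

namespace Pool.Agent.Q169.ZD

noncomputable section

/-- The subgroup `W_T` of `W` generated by the simple reflections with index in `T`. -/
def par {B : Type} {M : CoxeterMatrix B} {W : Type} [Group W] (cs : CoxeterSystem M W)
    (T : Set B) : Subgroup W := Subgroup.closure (cs.simple '' T)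

/-- The cells of a finite-dimensional CW complex `Y` with a free cellular action of the group `H`
with finitely many orbits of cells, and with mirrors: a family of subcomplexes `Y_b`, `b ∈ B`, with
`h Y_b = Y_(h b)`. -/
structure Mirrored (H : Type) [Group H] (B : Type) [MulAction H B] where
  /-- the `i`-cells -/
  E : ℕ → Type
  /-- the action of `H` on the `i`-cells -/
  act : ∀ i, MulAction H (E i)
  /-- the action is free -/
  free : ∀ (i : ℕ) (h : H) (e : E i), h • e = e → h = 1
  /-- the cellular boundary `∂ e` of an `(i + 1)`-cell (for `H`-invariant orientations) -/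
  bd : ∀ i, E (i + 1) → (E i →₀ ℤ)
  /-- `∂ (h e) = h ∂ e` -/
  bd_smul : ∀ (i : ℕ) (h : H) (e : E (i + 1)),
    bd i (h • e) = (bd i e).mapDomain (fun f => h • f)
  /-- the set of the indices `b` of the mirrors which contain the cell `e` -/
  mir : ∀ i, E i → Set B
  /-- `h Y_b = Y_(h b)` -/
  mir_smul : ∀ (i : ℕ) (h : H) (e : E i), mir i (h • e) = (fun b => h • b) '' mir i e
  /-- the faces of a cell in a mirror are in this mirror -/
  mir_face : ∀ (i : ℕ) (e : E (i + 1)) (f : E i), bd i e f ≠ 0 → mir (i + 1) e ⊆ mir i f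
  /-- the number of orbits of `i`-cells -/
  c : ℕ → ℕ
  /-- representatives of the orbits of `i`-cells -/
  rep : ∀ i, Fin (c i) → E i
  /-- every cell is in the orbit of exactly one representative -/
  rep_unique : ∀ (i : ℕ) (e : E i), ∃! a, e ∈ MulAction.orbit H (rep i a)
  /-- the dimension -/
  len : ℕ
  /-- there are no cells of dimension greater than `len` -/
  isEmpty : ∀ i, len < i → IsEmpty (E i)

instance {H : Type} [Group H] {B : Type} [MulAction H B] (Y : Mirrored H B) (i : ℕ) :
    MulAction H (Y.E i) := Y.act i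

variable {B : Type} {M : CoxeterMatrix B} {W : Type} [Group W] (cs : CoxeterSystem M W)
  {H : Type} [Group H] [MulAction H B] (Y : Mirrored H B)

/-- The `i`-cells `w e` of `𝒰(W, Y) = W × Y / ∼`, where `w e = w' e` for `w⁻¹ w' ∈ W_(mir e)`: pairs
of an `i`-cell `e` of `Y` and a coset of the subgroup `W_(mir e)`. -/
def Cell (i : ℕ) : Type := Σ e : Y.E i, W ⧸ par cs (Y.mir i e)

/-- The cell `w e`. -/
def cell (i : ℕ) (e : Y.E i) (w : W) : Cell cs Y i := ⟨e, QuotientGroup.mk w⟩

/-- The boundary of a cell: `∂ (w e) = w ∂ e`. -/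
def bdCell (i : ℕ) (x : Cell cs Y (i + 1)) : Cell cs Y i →₀ ℤ :=
  (Y.bd i x.1).mapDomain (fun f => cell cs Y i f x.2.out)

/-- The cellular boundary map of `𝒰(W, Y)`. -/
def bdU (i : ℕ) (z : Cell cs Y (i + 1) →₀ ℤ) : Cell cs Y i →₀ ℤ :=
  z.sum fun x n => n • bdCell cs Y i x

/-- `𝒰(W, Y)` is nonempty and acyclic: its augmented cellular chain complex is exact. -/
structure IsAcyclic : Prop where
  nonempty : Nonempty (Y.E 0)
  exact_zero : ∀ x : Cell cs Y 0 →₀ ℤ, x.sum (fun _ r => r) = 0 ↔ ∃ y, bdU cs Y 0 y = x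
  exact_succ : ∀ (i : ℕ) (x : Cell cs Y (i + 1) →₀ ℤ),
    bdU cs Y i x = 0 ↔ ∃ y, bdU cs Y (i + 1) y = x

/-- A weight function `q : W → (0, ∞)`: `q (u w) = q u * q w` if `u` or `w` is a simple reflection
and `ℓ(u w) > ℓ(w)` or `ℓ(u w) > ℓ(u)`, respectively; so `q w = q s₁ ⋯ q s_n` for reduced
expressions `w = s₁ ⋯ s_n`. For instance `q w = r ^ ℓ(w)` with `r > 0`. -/
structure IsWeight (q : W → ℝ) : Prop where
  one : q 1 = 1
  pos : ∀ w, 0 < q w
  simple_mul : ∀ (w : W) (b : B), cs.length w < cs.length (cs.simple b * w) →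
    q (cs.simple b * w) = q (cs.simple b) * q w
  mul_simple : ∀ (w : W) (b : B), cs.length w < cs.length (w * cs.simple b) →
    q (w * cs.simple b) = q w * q (cs.simple b)

end

end Pool.Agent.Q169.ZD
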