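import Pool.Agent.Q169.ZD.Stm

/-!
# Project ZD: the engine
-/

set_option autoImplicit false
set_option linter.unusedSectionVars false

open scoped InnerProductSpace

namespace Pool.Agent.Q169.ZD

open Pool.Agent.H496R3.ZS (Ell permIso dl dl_apply inner_dl_left)

noncomputable section

open scoped Classical

variable {G : Type} [Group G] {E : Ext G} {I : Type} [Fintype I] (C : Cx E I)

theorem wt_div {q p : G → ℝ} (hq : Wt E q) (hp : Wt E p) : Wt E (fun g => q g / p g) where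
  pos g := div_pos (hq.pos g) (hp.pos g)
  one := by rw [hq.one, hp.one, div_one]
  zero_mul h hh g := by rw [hq.zero_mul h hh, hp.zero_mul h hh]
  mul_zero h hh g := by rw [hq.mul_zero h hh, hp.mul_zero h hh]
  mul s hs g hg := by rw [hq.mul s hs g hg, hp.mul s hs g hg, mul_div_mul_comm]
  smul s hs g hg := by rw [hq.smul s hs g hg, hp.smul s hs g hg, mul_div_mul_comm]

theorem norm_dl {X : Type} (p : X) : ‖(dl p : Ell X)‖ = 1 :=
  Pool.Agent.H496R3.ZS.orthonormal_dl.1 p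

/-- the trace as a linear functional -/
def TrL (G I : Type) [Group G] [Fintype I] : (Ell (I × G) →L[ℂ] Ell (I × G)) →ₗ[ℂ] ℂ where
  toFun x := Tr x
  map_add' x y := by
    simp only [Tr, ← Finset.sum_add_distrib]
    rfl
  map_smul' a x := by
    simp only [Tr, Finset.smul_sum]
    rfl

theorem norm_Tr_le (x : Ell (I × G) →L[ℂ] Ell (I × G)) : ‖TrL G I x‖ ≤ Fintype.card I * ‖x‖ := by
  change ‖∑ j : I, (x (dl (j, 1)) : I × G → ℂ) (j, 1)‖ ≤ _
  refine (norm_sum_le _ _).trans ?_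
  have h : ∀ j ∈ (Finset.univ : Finset I), ‖(x (dl (j, 1)) : I × G → ℂ) (j, 1)‖ ≤ ‖x‖ := by
    intro j _
    rw [← inner_dl_left (j, 1) (x (dl (j, 1)))]
    refine (norm_inner_le_norm _ _).trans ?_
    rw [norm_dl, one_mul]
    refine (x.le_opNorm _).trans ?_
    rw [norm_dl, mul_one]
  refine (Finset.sum_le_card_nsmul _ _ _ h).trans ?_
  rw [Finset.card_univ, nsmul_eq_mul]

theorem FS.comp {X : Type} {x y : Ell X →L[ℂ] Ell X} (hx : FS x) (hy : FS y) : FS (x ∘L y) :=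
  fun F hF => hx _ (hy _ hF)

theorem FS.add {X : Type} {x y : Ell X →L[ℂ] Ell X} (hx : FS x) (hy : FS y) : FS (x + y) := by
  intro F hF
  refine ((hx F hF).union (hy F hF)).subset ?_
  intro p hp
  by_contra h
  rw [Set.mem_union, not_or, Function.mem_support, Function.mem_support, not_not, not_not] at h
  apply hp
  change x F p + y F p = 0
  rw [h.1, h.2, add_zero]

theorem FS.smul {X : Type} {x : Ell X →L[ℂ] Ell X} (hx : FS x) (a : ℂ) : FS (a • x) := by
  intro F hF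
  refine (hx F hF).subset ?_
  intro p hp
  rw [Function.mem_support] at hp ⊢
  intro h
  apply hp
  change a * x F p = 0
  rw [h, mul_zero]

theorem Comm.comp {q : G → ℝ} {x y : Ell (I × G) →L[ℂ] Ell (I × G)} (hx : Comm E I q x)
    (hy : Comm E I q y) : Comm E I q (x ∘L y) := by
  refine ⟨fun s hs => ?_, fun h hh => ?_⟩
  · rw [ContinuousLinearMap.comp_assoc, hy.1 s hs, ← ContinuousLinearMap.comp_assoc, hx.1 s hs,
      ContinuousLinearMap.comp_assoc]
  · rw [ContinuousLinearMap.comp_assoc, hy.2 h hh, ← ContinuousLinearMap.comp_assoc, hx.2 h hh,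
      ContinuousLinearMap.comp_assoc]

theorem Comm.add {q : G → ℝ} {x y : Ell (I × G) →L[ℂ] Ell (I × G)} (hx : Comm E I q x)
    (hy : Comm E I q y) : Comm E I q (x + y) := by
  refine ⟨fun s hs => ?_, fun h hh => ?_⟩
  · rw [ContinuousLinearMap.add_comp, hx.1 s hs, hy.1 s hs, ContinuousLinearMap.comp_add]
  · rw [ContinuousLinearMap.add_comp, hx.2 h hh, hy.2 h hh, ContinuousLinearMap.comp_add]

theorem Comm.smul {q : G → ℝ} {x : Ell (I × G) →L[ℂ] Ell (I × G)} (hx : Comm E I q x) (a : ℂ) :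
    Comm E I q (a • x) := by
  refine ⟨fun s hs => ?_, fun h hh => ?_⟩
  · rw [ContinuousLinearMap.smul_comp, hx.1 s hs, ContinuousLinearMap.comp_smul]
  · rw [ContinuousLinearMap.smul_comp, hx.2 h hh, ContinuousLinearMap.comp_smul]

theorem comm_eps {q : G → ℝ} (hq : Wt E q) (hcomm : S_COMM G E I C) : Comm E I q C.eps := by
  have h1 := (hcomm q hq).2.2.2 {j | Even (C.deg j)}
  have h2 := (hcomm q hq).2.2.2 {j | ¬ Even (C.deg j)}
  have h3 := h1.add (h2.smul (-1))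
  have e : C.eps = msk {p : I × G | p.1 ∈ {j | Even (C.deg j)}} +
      (-1 : ℂ) • msk {p : I × G | p.1 ∈ {j | ¬ Even (C.deg j)}} := by
    rw [neg_one_smul, ← sub_eq_add_neg]
    rfl
  rw [e]
  exact h3

theorem eps_apply (F : Ell (I × G)) (p : I × G) :
    C.eps F p = ((-1 : ℂ)) ^ (C.deg p.1) * F p := by
  change msk {p : I × G | Even (C.deg p.1)} F p - msk {p : I × G | ¬ Even (C.deg p.1)} F p = _
  rw [msk_apply, msk_apply]
  simp only [Set.mem_setOf_eq]
  by_cases h : Even (C.deg p.1)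
  · rw [if_pos h, if_neg (not_not.2 h), h.neg_one_pow, sub_zero, one_mul]
  · rw [if_neg h, if_pos h, (Nat.not_even_iff_odd.1 h).neg_one_pow, zero_sub, neg_one_mul]

/-- the engine -/
theorem engine (hproj : S_PROJ G E I C) (hcont : S_CONT G E I C) (hcomm : S_COMM G E I C)
    (htr : S_TRACE G E I) (hgap : S_GAP (Ell (I × G))) (hsmall : S_SMALL (Ell (I × G)))
    (hsuper : S_SUPER (Ell (I × G))) (hana : S_ANA) (hD : S_DPROP G E I C)
    (q₀ : G → ℝ) (hq₀ : Wt E q₀) (hex : C.Exact q₀) (q : G → ℝ) (hq : Wt E q) :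
    ∑ j, (-1 : ℝ) ^ (C.deg j) / C.wt q j = 0 := by
  obtain ⟨hDf, hDM, hDD, hDF, hDsF, hepsF, hepsD, hepsDs⟩ := hD
  -- general facts for a weight function
  have idem : ∀ r : G → ℝ, Wt E r → C.P r ∘L C.P r = C.P r := by
    intro r hr
    refine ContinuousLinearMap.ext fun F => ?_
    exact (hproj r hr).2.1 _ ((hproj r hr).1 F)
  have pdp : ∀ r : G → ℝ, Wt E r → C.P r ∘L C.Dh ∘L C.P r = C.Dh ∘L C.P r := by
    intro r hr
    refine ContinuousLinearMap.ext fun F => ?_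
    exact (hproj r hr).2.1 _ (hDM r hr _ ((hproj r hr).1 F))
  have ddp : ∀ r : G → ℝ, C.Dh ∘L C.Dh ∘L C.P r = 0 := by
    intro r
    rw [← ContinuousLinearMap.comp_assoc, hDD, ContinuousLinearMap.zero_comp]
  have dsds : C.Ds ∘L C.Ds = 0 := by
    have h := congrArg ContinuousLinearMap.adjoint hDD
    rw [ContinuousLinearMap.adjoint_comp, map_zero] at h
    exact h
  have pdsp : ∀ r : G → ℝ, Wt E r → C.P r ∘L C.Ds ∘L C.P r = C.P r ∘L C.Ds := by
    intro r hr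
    have h := congrArg ContinuousLinearMap.adjoint (pdp r hr)
    simp only [ContinuousLinearMap.adjoint_comp, (hproj r hr).2.2.1,
      ContinuousLinearMap.comp_assoc] at h
    exact h
  have epsP : ∀ r : G → ℝ, Wt E r → C.eps ∘L C.P r = C.P r ∘L C.eps := by
    intro r hr
    have h1 := (hproj r hr).2.2.2.2.2 {j | Even (C.deg j)}
    have h2 := (hproj r hr).2.2.2.2.2 {j | ¬ Even (C.deg j)}
    have e : C.eps = msk {p : I × G | p.1 ∈ {j | Even (C.deg j)}} -
        msk {p : I × G | p.1 ∈ {j | ¬ Even (C.deg j)}} := rfl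
    rw [e, ContinuousLinearMap.sub_comp, ContinuousLinearMap.comp_sub, h1, h2]
  -- the gap at q₀
  obtain ⟨K, hK, hK'⟩ := hgap (C.P q₀) C.Dh (idem q₀ hq₀) (hproj q₀ hq₀).2.2.1 (pdp q₀ hq₀)
    (ddp q₀) (by
      intro x hx hx0
      have hxM : InM C q₀ x := hx ▸ (hproj q₀ hq₀).1 x
      obtain ⟨y, hy, hyx⟩ := hex x hxM (by
        funext p
        rw [← hDf x p, hx0]
        rfl)
      refine ⟨y, (hproj q₀ hq₀).2.1 y hy, ell_ext fun p => ?_⟩
      rw [hDf, hyx])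
  obtain ⟨c, -, hc⟩ := hsmall (C.P q₀) C.Dh (idem q₀ hq₀) (hproj q₀ hq₀).2.2.1 (pdp q₀ hq₀) K hK hK'
  -- the path of weight functions
  have hp : Wt E (fun g => q g / q₀ g) := wt_div hq hq₀
  obtain ⟨hpath, hcts⟩ := hcont q₀ (fun g => q g / q₀ g) hq₀ hp
  set r : ℝ → G → ℝ := fun t g => q₀ g * (q g / q₀ g) ^ t with hr
  have hA : Continuous fun t : ℝ => C.P (r t) - (c : ℂ) • (C.P (r t) ∘L C.Ds ∘L C.Dh ∘L C.P (r t) +
      C.Dh ∘L C.P (r t) ∘L C.Ds) := by
    have h1 : Continuous fun t : ℝ => C.P (r t) ∘L C.Ds ∘L C.Dh ∘L C.P (r t) :=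
      hcts.clm_comp (continuous_const.clm_comp (continuous_const.clm_comp hcts))
    have h2 : Continuous fun t : ℝ => C.Dh ∘L C.P (r t) ∘L C.Ds :=
      continuous_const.clm_comp (hcts.clm_comp continuous_const)
    exact hcts.sub ((h1.add h2).const_smul (c : ℂ))
  have hr0 : r 0 = q₀ := by
    funext g
    simp only [hr, Real.rpow_zero, mul_one]
  have hev : ∀ᶠ t in nhds (0 : ℝ), ‖C.P (r t) - (c : ℂ) • (C.P (r t) ∘L C.Ds ∘L C.Dh ∘L C.P (r t) +
      C.Dh ∘L C.P (r t) ∘L C.Ds)‖ < 1 := by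
    have h1 := (hA.norm).tendsto 0
    refine h1.eventually_lt tendsto_const_nhds ?_
    rw [hr0]
    exact hc
  rw [Metric.eventually_nhds_iff] at hev
  obtain ⟨η, hη, hη'⟩ := hev
  -- the supertrace vanishes near 0
  have key : ∀ t : ℝ, |t| < η → ∑ j, (-1 : ℝ) ^ (C.deg j) / ∑ u ∈ C.U j, q₀ u * (q u / q₀ u) ^ t = 0 := by
    intro t ht
    have hrt : Wt E (r t) := hpath t
    have hn := hη' (y := t) (by rw [dist_zero_right]; exact ht)
    have h0 := hsuper {x | Comm E I (r t) x ∧ FS x} (TrL G I) (Fintype.card I)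
      (fun x hx y hy => ⟨hx.1.add hy.1, hx.2.add hy.2⟩)
      (fun x hx y hy => ⟨hx.1.comp hy.1, hx.2.comp hy.2⟩)
      (fun a x hx => ⟨hx.1.smul a, hx.2.smul a⟩)
      (fun x hx y hy => htr (r t) hrt x y hx.1 hy.1 hx.2 hy.2)
      (fun x => norm_Tr_le x) (C.P (r t)) C.Dh C.Ds C.eps
      ⟨(hcomm _ hrt).1, (hproj _ hrt).2.2.2.2.1⟩ ⟨(hcomm _ hrt).2.1, hDF⟩
      ⟨(hcomm _ hrt).2.2.1, hDsF⟩ ⟨comm_eps C hrt hcomm, hepsF⟩ (idem _ hrt) (pdp _ hrt)
      (pdsp _ hrt) (ddp _) (by rw [dsds, ContinuousLinearMap.comp_zero]) (epsP _ hrt) hepsD hepsDs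
      (c : ℂ) hn
    have h1 : TrL G I (C.eps ∘L C.P (r t)) =
        ((∑ j, (-1 : ℝ) ^ (C.deg j) / ∑ u ∈ C.U j, q₀ u * (q u / q₀ u) ^ t : ℝ) : ℂ) := by
      change ∑ j : I, ((C.eps (C.P (r t) (dl (j, 1)))) : I × G → ℂ) (j, 1) = _
      push_cast
      refine Finset.sum_congr rfl fun j _ => ?_
      rw [eps_apply, (hproj _ hrt).2.2.2.1 j]
      have hw : C.wt (r t) j = ∑ u ∈ C.U j, q₀ u * (q u / q₀ u) ^ t := rfl
      rw [hw]
      push_cast
      rw [mul_one_div]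
    rw [h1] at h0
    exact_mod_cast h0
  have hfin := hana I G C.U q₀ (fun g => q g / q₀ g) (fun j => (-1 : ℝ) ^ (C.deg j)) hq₀.pos hp.pos
    (fun j => ⟨1, (C.mem_U j 1).2 (one_mem _)⟩) ⟨η, hη, key⟩ 1
  rw [← hfin]
  refine Finset.sum_congr rfl fun j _ => ?_
  congr 1
  refine Finset.sum_congr rfl fun u _ => ?_
  rw [Real.rpow_one, mul_div_cancel₀ _ (hq₀.pos u).ne']

end

end Pool.Agent.Q169.ZD
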