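import Pool.Agent.Q169.ZD.Trans4
import Pool.Agent.Q169.ZD.Engine
import Pool.Agent.Q211.ZD.Up
import Pool.Agent.Q211.ZD.Comm
import Pool.Agent.Q211.ZD.Dprop
import Pool.Agent.Q144.ZD.Proj
import Pool.Agent.Q144.ZD.Trace
import Pool.Agent.Q58.ZD.Ana
import Pool.Agent.Q58.ZD.Right
import Pool.Agent.Q58.ZD.Gap
import Pool.Agent.Q31.ZD.Ext
import Pool.Agent.Q150.ZD.Cell
import Pool.Agent.Q224.ZD.Res
import Pool.Agent.Q241.ZD.Ltwo

/-!
# Project ZD: the theorem
-/

set_option autoImplicit false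
set_option linter.unusedSectionVars false

namespace Pool.Agent.Q169.ZD

open Pool.Agent.H496R3.ZS (Ell)
open Pool.Agent.H919R4.ZS (FinRes toRed)
open Pool.Agent.TH38.ZT (ExAt exAt_iff)
open Pool.Agent.TH38.CX (AcyclicGComplex)

noncomputable section

open scoped Classical

/-- the engine without hypotheses -/
theorem engine' {G : Type} [Group G] {E : Ext G} {I : Type} [Fintype I] (C : Cx E I)
    (q₀ : G → ℝ) (hq₀ : Wt E q₀) (hex : C.Exact q₀) (q : G → ℝ) (hq : Wt E q) :
    ∑ j, (-1 : ℝ) ^ (C.deg j) / C.wt q j = 0 := by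
  have h1 := Pool.Agent.Q144.ZD.proj G E I C (Pool.Agent.Q211.ZD.up G E I C)
  have h2 := Pool.Agent.Q58.ZD.right G E I C
  exact engine C h1 (Pool.Agent.Q58.ZD.cont G E I C) (Pool.Agent.Q211.ZD.comm G E I C h2 h1)
    (Pool.Agent.Q144.ZD.trace G E I) (Pool.Agent.Q58.ZD.gap _) (Pool.Agent.Q58.ZD.small _)
    (Pool.Agent.Q58.ZD.super _) Pool.Agent.Q58.ZD.ana (Pool.Agent.Q211.ZD.dprop G E I C)
    q₀ hq₀ hex q hq

/-- restriction of the acting group -/
def resU {G : Type} [Group G] (U : AcyclicGComplex G) (N : Subgroup G) : AcyclicGComplex N where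
  E := U.E
  act _ := inferInstance
  bd := U.bd
  bd_smul i g x := U.bd_smul i g x
  len := U.len
  isEmpty := U.isEmpty
  nonempty := U.nonempty
  exact_zero := U.exact_zero
  exact_succ := U.exact_succ

/-- finitely many orbits for a subgroup of finite index -/
theorem orbits_finite {G X : Type} [Group G] [MulAction G X] (N : Subgroup G) [N.FiniteIndex]
    {c : ℕ} (rep : Fin c → X) (hrep : ∀ x : X, ∃ a, ∃ g : G, g • rep a = x) :
    ∃ (c' : ℕ) (rep' : Fin c' → X), ∀ x : X, ∃! a, x ∈ MulAction.orbit N (rep' a) := by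
  have hfin : Finite (MulAction.orbitRel.Quotient N X) := by
    have : Finite (G ⧸ N) := inferInstance
    let f : (G ⧸ N) × Fin c → MulAction.orbitRel.Quotient N X :=
      fun p => Quotient.mk'' ((p.1.out)⁻¹ • rep p.2)
    refine Finite.of_surjective f ?_
    intro y
    induction y using Quotient.inductionOn' with
    | h x =>
      obtain ⟨a, g, rfl⟩ := hrep x
      refine ⟨(QuotientGroup.mk g⁻¹, a), ?_⟩
      refine Quotient.sound' ?_
      change ((QuotientGroup.mk g⁻¹ : G ⧸ N).out)⁻¹ • rep a ∈ MulAction.orbit N (g • rep a)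
      have h1 : g * (QuotientGroup.mk g⁻¹ : G ⧸ N).out ∈ N := by
        have h2 : ((QuotientGroup.mk g⁻¹ : G ⧸ N).out : G ⧸ N) = QuotientGroup.mk g⁻¹ :=
          QuotientGroup.out_eq' _
        have h3 := QuotientGroup.eq.1 h2.symm
        rwa [inv_inv] at h3
      refine ⟨⟨g * (QuotientGroup.mk g⁻¹ : G ⧸ N).out, h1⟩⁻¹, ?_⟩
      change (g * (QuotientGroup.mk g⁻¹ : G ⧸ N).out)⁻¹ • g • rep a = _
      rw [mul_inv_rev, mul_smul, inv_smul_smul]
  obtain ⟨c', ⟨e⟩⟩ := Finite.exists_equiv_fin (MulAction.orbitRel.Quotient N X)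
  refine ⟨c', fun a => (e.symm a).out, fun x => ?_⟩
  have key : ∀ a, x ∈ MulAction.orbit N ((e.symm a).out : X) ↔ (Quotient.mk'' x : MulAction.orbitRel.Quotient N X) = e.symm a := by
    intro a
    rw [← MulAction.orbitRel_apply]
    conv_rhs => rw [← Quotient.out_eq' (e.symm a)]
    exact (Quotient.eq'' (s₁ := MulAction.orbitRel N X)).symm
  refine ⟨e (Quotient.mk'' x), ?_, ?_⟩
  · change x ∈ MulAction.orbit N _
    rw [key, Equiv.symm_apply_apply]
  · intro a ha
    have ha' := (key a).1 ha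
    rw [ha', Equiv.apply_symm_apply]

variable {B : Type} {M : CoxeterMatrix B} {W : Type} [Group W] (cs : CoxeterSystem M W)
  {H : Type} [Group H] [MulAction H B] (φ : H →* MulAut W)
  (hφ : ∀ h b, φ h (cs.simple b) = cs.simple (h • b)) (Y : Mirrored H B)

include hφ in
theorem wt_ext (E : Ext (W ⋊[φ] H)) (hS : E.S = {s | ∃ b : B, s = ⟨cs.simple b, 1⟩})
    (hl : ∀ g, E.len g = cs.length g.left) {q : W → ℝ} (hq : IsWeight cs q)
    (hqH : ∀ h w, q (φ h w) = q w) : Wt E (fun g => q g.left) where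
  pos g := hq.pos _
  one := by
    change q (1 : W ⋊[φ] H).left = 1
    rw [SemidirectProduct.one_left, hq.one]
  zero_mul h hh g := by
    rw [hl, cs.length_eq_zero_iff] at hh
    rw [SemidirectProduct.mul_left, hh, one_mul, hqH]
  mul_zero h hh g := by
    rw [hl, cs.length_eq_zero_iff] at hh
    rw [SemidirectProduct.mul_left, hh, map_one, mul_one]
  mul s hs g hg := by
    rw [hS] at hs
    obtain ⟨b, rfl⟩ := hs
    rw [hl, hl, SemidirectProduct.mul_left] at hg
    rw [SemidirectProduct.mul_left]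
    change q (g.left * φ g.right (cs.simple b)) = q g.left * q (cs.simple b)
    change cs.length g.left < cs.length (g.left * φ g.right (cs.simple b)) at hg
    rw [hφ] at hg ⊢
    rw [hq.mul_simple _ _ hg, ← hφ, hqH]
  smul s hs g hg := by
    rw [hS] at hs
    obtain ⟨b, rfl⟩ := hs
    rw [hl, hl, SemidirectProduct.mul_left] at hg
    rw [SemidirectProduct.mul_left]
    change q (cs.simple b * φ 1 g.left) = q (cs.simple b) * q g.left
    change cs.length g.left < cs.length (cs.simple b * φ 1 g.left) at hg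
    rw [map_one] at hg ⊢
    exact hq.simple_mul _ _ hg

theorem wt_one {G : Type} [Group G] (E : Ext G) : Wt E (fun _ => 1) where
  pos _ := one_pos
  one := rfl
  zero_mul _ _ _ := rfl
  mul_zero _ _ _ := rfl
  mul _ _ _ _ := (one_mul _).symm
  smul _ _ _ _ := (one_mul _).symm

/-- **Zero in the spectrum for reflection groups with mirrored chambers.** -/
theorem final (hφ : ∀ h b, φ h (cs.simple b) = cs.simple (h • b)) (Y : Mirrored H B)
    (hfin : ∀ i (e : Y.E i), Finite (par cs (Y.mir i e))) (hU : IsAcyclic cs Y)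
    (N : Subgroup (W ⋊[φ] H)) [N.FiniteIndex] (hN : ∀ g ∈ N, IsOfFinOrder g → g = 1)
    (q : W → ℝ) (hq : IsWeight cs q) (hqH : ∀ h w, q (φ h w) = q w)
    (hsum : ∑ i ∈ Finset.range (Y.len + 1), ∑ a : Fin (Y.c i),
      (-1 : ℝ) ^ i / ∑ᶠ u : par cs (Y.mir i (Y.rep i a)), q u ≠ 0)
    (X : FinRes N) : ∃ i, Nontrivial (X.homology (toRed N) i) := by
  by_contra hcon
  push Not at hcon
  have hEx : ∀ i, ExAt X (toRed N) i := fun i =>
    (exAt_iff X (toRed N) i).2 (hcon i)
  obtain ⟨U, κ, k1, k2, k3, k4⟩ := Pool.Agent.Q150.ZD.cell' B M W cs H φ hφ Y hU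
  let V : UU cs φ Y := ⟨U, κ, k1, k2, k3, k4⟩
  obtain ⟨E, hS, hl⟩ := Pool.Agent.Q31.ZD.ext B M W cs H φ hφ
  -- the orbits of N
  have horb : ∀ i, ∃ (c' : ℕ) (rep' : Fin c' → U.E i), ∀ x : U.E i,
      ∃! a, x ∈ MulAction.orbit N (rep' a) := by
    intro i
    refine orbits_finite N (fun a => κ i (Y.rep i a) 1) fun x => ?_
    obtain ⟨e, w, rfl⟩ := k1 i x
    refine ⟨orb Y i e, SemidirectProduct.inl w * SemidirectProduct.inr (mov Y i e), ?_⟩
    have h1 := V.smul_rep i (orb Y i e) w (mov Y i e)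
    rw [mov_spec] at h1
    exact h1
  choose c' rep' hrep' using horb
  have hfree : ∀ i (n : N) (e : (resU U N).E i), n • e = e → n = 1 := by
    intro i n e hn
    obtain ⟨e, w, rfl⟩ := k1 i e
    have h1 : (n : W ⋊[φ] H) • κ i e w = κ i e w := hn
    rw [k3, eq_comm, k2] at h1
    obtain ⟨h2, h3⟩ := h1
    have h4 : (n : W ⋊[φ] H).right = 1 := Y.free i _ _ h2.symm
    rw [h4, map_one, MulAut.one_apply] at h3
    have h5 : IsOfFinOrder (n : W ⋊[φ] H).left := by
      have := hfin i e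
      have h6 : IsOfFinOrder (⟨w⁻¹ * ((n : W ⋊[φ] H).left * w), h3⟩ : par cs (Y.mir i e)) :=
        isOfFinOrder_of_finite _
      have h7 : IsOfFinOrder (w⁻¹ * ((n : W ⋊[φ] H).left * w)) :=
        MonoidHom.isOfFinOrder (par cs (Y.mir i e)).subtype h6
      have h8 := MonoidHom.isOfFinOrder (MulAut.conj w).toMonoidHom h7
      have h9 : (MulAut.conj w).toMonoidHom (w⁻¹ * ((n : W ⋊[φ] H).left * w)) =
          (n : W ⋊[φ] H).left := by
        change w * (w⁻¹ * ((n : W ⋊[φ] H).left * w)) * w⁻¹ = _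
        group
      rwa [h9] at h8
    have h10 : (n : W ⋊[φ] H) = SemidirectProduct.inl (n : W ⋊[φ] H).left :=
      SemidirectProduct.ext (by rw [SemidirectProduct.left_inl])
        (by rw [SemidirectProduct.right_inl, h4])
    have h11 : IsOfFinOrder (n : W ⋊[φ] H) := by
      rw [h10]
      exact MonoidHom.isOfFinOrder SemidirectProduct.inl h5
    exact Subtype.ext (hN n n.2 h11)
  have hL := Pool.Agent.Q241.ZD.ltwo Pool.Agent.Q224.ZD.res N (resU U N) hfree c' rep' hrep' X hEx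
  have hL' : L2Ex V.U.E (fun i => V.U.bd i) := hL
  have hexact : (mkCx V hφ hfin E hS hl).Exact (fun _ => 1) := by
    intro F hFM hF0
    have hinv : Inv' cs φ Y F := (inM_one_iff E (mkCx V hφ hfin E hS hl) F).1 hFM
    obtain ⟨F', h1, h2, h3⟩ := exact_one' V hφ hfin hL' F (lp.memℓp F) hinv hF0
    refine ⟨⟨F', h1⟩, (inM_one_iff E (mkCx V hφ hfin E hS hl) F').2 h2, h3⟩
  have hmain := engine' (mkCx V hφ hfin E hS hl) (fun _ => 1) (wt_one E) hexact
    (fun g => q g.left) (wt_ext cs φ hφ E hS hl hq hqH)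
  apply hsum
  rw [← hmain, Fintype.sum_sigma, ← Fin.sum_univ_eq_sum_range
    (fun i => ∑ a : Fin (Y.c i), (-1 : ℝ) ^ i / ∑ᶠ u : par cs (Y.mir i (Y.rep i a)), q u)]
  refine Finset.sum_congr rfl fun i _ => Finset.sum_congr rfl fun a _ => ?_
  have hw : (mkCx V hφ hfin E hS hl).wt (fun g => q g.left) ⟨i, a⟩ =
      ∑ᶠ u : par cs (Y.mir i (Y.rep i a)), q u := by
    have := hfin i (Y.rep i a)
    have := Fintype.ofFinite (par cs (Y.mir i (Y.rep i a)))
    rw [finsum_eq_sum_of_fintype, Cx.wt]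
    symm
    refine Finset.sum_bij (fun (u : par cs (Y.mir i (Y.rep i a))) _ =>
      (SemidirectProduct.inl (u : W) : W ⋊[φ] H)) ?_ ?_ ?_ ?_
    · intro u _
      rw [Cx.mem_U]
      change SemidirectProduct.inl (u : W) ∈ Subgroup.closure (TT cs φ Y ⟨i, a⟩)
      rw [closure_TT]
      exact Subgroup.mem_map_of_mem _ u.2
    · intro u _ u' _ h
      exact Subtype.ext (SemidirectProduct.inl_injective h)
    · intro g hg
      rw [Cx.mem_U] at hg
      change g ∈ Subgroup.closure (TT cs φ Y ⟨i, a⟩) at hg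
      rw [closure_TT] at hg
      obtain ⟨u, hu, rfl⟩ := hg
      exact ⟨⟨u, hu⟩, Finset.mem_univ _, rfl⟩
    · intro u _
      rw [SemidirectProduct.left_inl]
  rw [hw]
  rfl

end

end Pool.Agent.Q169.ZD
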