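import Pool.Agent.Q169.ZD.Stm3
import Pool.Agent.Q169.ZD.Final

/-!
# Project ZD, part 3: the theorem on buildings
-/

set_option autoImplicit false
set_option linter.unusedSectionVars false

namespace Pool.Agent.Q169.ZD

open Pool.Agent.H496R3.ZS (Ell)
open Pool.Agent.H919R4.ZS (FinRes toRed)
open Pool.Agent.TH38.ZT (ExAt exAt_iff)
open Pool.Agent.TH38.CX (AcyclicGComplex)

noncomputable section

open scoped Classical

variable {B : Type} [Finite B] [LinearOrder B] {M : CoxeterMatrix B} {W : Type} [Group W]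
  (cs : CoxeterSystem M W)

theorem par_mono {S T : Set B} (h : S ⊆ T) : par cs S ≤ par cs T :=
  Subgroup.closure_mono (Set.image_mono h)

theorem par_lo_finite (p : Itv cs) : Finite (par cs (p.lo : Set B)) := by
  have := p.sph
  exact Finite.of_injective _ (Subgroup.inclusion_injective
    (par_mono cs (by exact_mod_cast p.le : (p.lo : Set B) ⊆ p.hi)))

/-- the cochain complex of the Davis chamber as a `Cx` -/
def mkK (hd : S_KDEG) (hs : S_KSQ) (E : Ext W) (hS : E.S = Set.range cs.simple)
    (hl : ∀ g, E.len g = cs.length g) : Cx E (Itv cs) where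
  T p := cs.simple '' (p.lo : Set B)
  sub p := by
    rintro _ ⟨b, _, rfl⟩
    rw [hS]
    exact ⟨b, rfl⟩
  fin p := by
    have := par_lo_finite cs p
    exact Set.toFinite ((par cs (p.lo : Set B) : Subgroup W) : Set W)
  deg p := p.deg
  D p p' := Finsupp.single 1 (kinc p p')
  D_len p p' h hh := by
    rw [Finsupp.single_apply] at hh
    by_cases h1 : 1 = h
    · rw [← h1, hl, cs.length_one]
    · rw [if_neg h1] at hh; exact absurd rfl hh
  D_deg p p' h hh := by
    rw [Finsupp.single_apply] at hh
    by_cases h1 : 1 = h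
    · rw [if_pos h1] at hh
      exact ((hd B M W cs).1 p p' hh).1
    · rw [if_neg h1] at hh; exact absurd rfl hh
  D_mir p p' h hh t ht := by
    rw [Finsupp.single_apply] at hh
    by_cases h1 : 1 = h
    · rw [if_pos h1] at hh
      have h2 := ((hd B M W cs).1 p p' hh).2.1
      obtain ⟨b, hb, rfl⟩ := ht
      refine ⟨b, by exact_mod_cast h2 (by exact_mod_cast hb), ?_⟩
      rw [← h1, inv_one, one_mul, mul_one]
    · rw [if_neg h1] at hh; exact absurd rfl hh
  D_sq F := by
    have h1 : ∀ (F : Itv cs × W → ℂ) (p : Itv cs) (g : W),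
        dop (fun p p' : Itv cs => Finsupp.single (1 : W) (kinc p p')) F (p, g) =
        ∑ p', ((kinc p p' : ℤ) : ℂ) * F (p', g) := by
      intro F p g
      rw [dop]
      refine Finset.sum_congr rfl fun p' _ => ?_
      by_cases h0 : kinc p p' = 0
      · simp [h0]
      · rw [Finsupp.support_single_ne_zero _ h0, Finset.sum_singleton]
        simp
    funext ⟨p, g⟩
    rw [h1]
    simp only [h1]
    simp only [Finset.mul_sum]
    rw [Finset.sum_comm]
    refine Finset.sum_eq_zero fun p'' _ => ?_
    have h2 := hs B M W cs p p''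
    have h3 : ((∑ p', kinc p p' * kinc p' p'' : ℤ) : ℂ) = 0 := by rw [h2]; simp
    push_cast at h3
    rw [← zero_mul (F (p'', g)), ← h3, Finset.sum_mul]
    refine Finset.sum_congr rfl fun p' _ => ?_
    ring

theorem dop_mkK (hd : S_KDEG) (hs : S_KSQ) (E : Ext W) (hS : E.S = Set.range cs.simple)
    (hl : ∀ g, E.len g = cs.length g) (F : Itv cs × W → ℂ) (p : Itv cs) (g : W) :
    dop (mkK cs hd hs E hS hl).D F (p, g) = ∑ p', ((kinc p p' : ℤ) : ℂ) * F (p', g) := by
  rw [dop]
  refine Finset.sum_congr rfl fun p' _ => ?_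
  change ∑ h ∈ (Finsupp.single (1 : W) (kinc p p')).support,
    ((Finsupp.single (1 : W) (kinc p p') h : ℤ) : ℂ) * F (p', h⁻¹ * g) = _
  by_cases h0 : kinc p p' = 0
  · simp [h0]
  · rw [Finsupp.support_single_ne_zero _ h0, Finset.sum_singleton]
    simp

theorem wt_of (E : Ext W) (hS : E.S = Set.range cs.simple)
    (hl : ∀ g, E.len g = cs.length g) {q : W → ℝ} (hq : IsWeight cs q) : Wt E q where
  pos := hq.pos
  one := hq.one
  zero_mul h hh g := by
    rw [hl, cs.length_eq_zero_iff] at hh
    rw [hh, one_mul]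
  mul_zero h hh g := by
    rw [hl, cs.length_eq_zero_iff] at hh
    rw [hh, mul_one]
  mul s hs g hg := by
    rw [hS] at hs
    obtain ⟨b, rfl⟩ := hs
    rw [hl, hl] at hg
    exact hq.mul_simple _ _ hg
  smul s hs g hg := by
    rw [hS] at hs
    obtain ⟨b, rfl⟩ := hs
    rw [hl, hl] at hg
    exact hq.simple_mul _ _ hg

theorem weight_pow {r : ℝ} (hr : 0 < r) : IsWeight cs (fun w => r ^ cs.length w) where
  one := by simp
  pos w := by positivity
  simple_mul w b h := by
    change r ^ cs.length (cs.simple b * w) = r ^ cs.length (cs.simple b) * r ^ cs.length w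
    rw [cs.length_simple, pow_one]
    rcases cs.length_simple_mul w b with h1 | h1
    · rw [h1, pow_succ, mul_comm]
    · omega
  mul_simple w b h := by
    change r ^ cs.length (w * cs.simple b) = r ^ cs.length w * r ^ cs.length (cs.simple b)
    rw [cs.length_simple, pow_one]
    rcases cs.length_mul_simple w b with h1 | h1
    · rw [h1, pow_succ]
    · omega

/-- representatives of finitely many orbits -/
theorem orbits_fin {N X : Type} [Group N] [MulAction N X]
    (hfin : Finite (MulAction.orbitRel.Quotient N X)) :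
    ∃ (c' : ℕ) (rep' : Fin c' → X), ∀ x : X, ∃! a, x ∈ MulAction.orbit N (rep' a) := by
  obtain ⟨c', ⟨e⟩⟩ := Finite.exists_equiv_fin (MulAction.orbitRel.Quotient N X)
  refine ⟨c', fun a => (e.symm a).out, fun x => ?_⟩
  have key : ∀ a, x ∈ MulAction.orbit N ((e.symm a).out : X) ↔
      (Quotient.mk'' x : MulAction.orbitRel.Quotient N X) = e.symm a := by
    intro a
    rw [← MulAction.orbitRel_apply]
    conv_rhs => rw [← Quotient.out_eq' (e.symm a)]
    exact (Quotient.eq'' (s₁ := MulAction.orbitRel N X)).symm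
  refine ⟨e (Quotient.mk'' x), ?_, ?_⟩
  · change x ∈ MulAction.orbit N _
    rw [key, Equiv.symm_apply_apply]
  · intro a ha
    have ha' := (key a).1 ha
    rw [ha', Equiv.apply_symm_apply]

/-- **Zero in the spectrum for uniform lattices of regular buildings.** -/
theorem final2_aux (hextw : S_EXTW) (hbld : S_BLD) (hcnt : S_CNT) (hd : S_KDEG) (hs : S_KSQ)
    (hlim : S_LIM) (hbu : S_BU) (hrada : S_RADA) (hradb : S_RADB)
    {Φ : Type} [Nonempty Φ] (δ : Φ → Φ → W) (hδ : IsBuilding cs δ) (k : B → ℕ)
    (hk : ∀ b c, {c' | δ c' c = cs.simple b}.encard = k b)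
    (N : Type) [Group N] [MulAction N Φ] (hN : ∀ (n : N) c d, δ (n • c) (n • d) = δ c d)
    (hst : ∀ c : Φ, Finite (MulAction.stabilizer N c))
    (hco : Finite (MulAction.orbitRel.Quotient N Φ))
    (htf : ∀ n : N, IsOfFinOrder n → n = 1) :
    Nonempty (FinRes N) ∧ ∀ X : FinRes N, ∃ i, Nontrivial (X.homology (toRed N) i) := by
  obtain ⟨q, hq, hq1, hq2, hq3⟩ := hcnt B M W cs Φ δ hδ k hk
  obtain ⟨U, κ, k1, k2, k3, k4⟩ := hbu B M W cs Φ δ hδ N hN
  obtain ⟨E, hS, hl⟩ := hextw B M W cs
  have hb := hbld B M W cs Φ δ hδ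
  -- finitely many orbits of cells
  have horb : ∀ i, ∃ (c' : ℕ) (rep' : Fin c' → U.E i), ∀ x : U.E i,
      ∃! a, x ∈ MulAction.orbit N (rep' a) := by
    intro i
    refine orbits_fin ?_
    let f : {p : Itv cs // p.deg = i} × MulAction.orbitRel.Quotient N Φ →
        MulAction.orbitRel.Quotient N (U.E i) := fun x => Quotient.mk'' (κ i x.1 x.2.out)
    refine Finite.of_surjective f ?_
    intro y
    induction y using Quotient.inductionOn' with
    | h x =>
      obtain ⟨p, c, rfl⟩ := k1 i x
      refine ⟨(p, Quotient.mk'' c), ?_⟩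
      refine Quotient.sound' ?_
      have h1 : (Quotient.mk'' (Quotient.mk'' c : MulAction.orbitRel.Quotient N Φ).out :
          MulAction.orbitRel.Quotient N Φ) = Quotient.mk'' c := Quotient.out_eq' _
      have h2 : (Quotient.mk'' c : MulAction.orbitRel.Quotient N Φ).out ∈ MulAction.orbit N c :=
        (Quotient.eq'' (s₁ := MulAction.orbitRel N Φ)).1 h1
      obtain ⟨n, hn⟩ := h2
      refine ⟨n, ?_⟩
      change n • κ i p c = κ i p _
      rw [k3]
      exact congrArg _ hn
  choose c' rep' hrep' using horb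
  -- the action on the cells is free
  have hfree : ∀ i (n : N) (e : U.E i), n • e = e → n = 1 := by
    intro i n e hn
    obtain ⟨p, c, rfl⟩ := k1 i e
    have hfix : ∀ m : ℕ, n ^ m • κ i p c = κ i p c := by
      intro m
      induction m with
      | zero => rw [pow_zero, one_smul]
      | succ m ih => rw [pow_succ, mul_smul, hn, ih]
    obtain ⟨m, hm⟩ := hq3 (p.1.lo : Set B) (par_lo_finite cs p.1)
    have hfin := (hm c).1
    -- the powers map a finite set into itself
    have hmem : ∀ a : ℕ, n ^ a • c ∈ {d | δ c d ∈ par cs (p.1.lo : Set B)} := by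
      intro a
      have h1 := hfix a
      rw [k3, eq_comm, k2] at h1
      exact h1.2
    obtain ⟨a, b, hab, hne⟩ : ∃ a b : ℕ, a < b ∧ n ^ a • c = n ^ b • c := by
      by_contra hcon
      push Not at hcon
      have hinj : Function.Injective (fun a : ℕ => (⟨n ^ a • c, hmem a⟩ :
          {d | δ c d ∈ par cs (p.1.lo : Set B)})) := by
        intro a b h
        have h' : n ^ a • c = n ^ b • c := congrArg Subtype.val h
        rcases lt_trichotomy a b with h1 | h1 | h1
        · exact absurd h' (hcon a b h1)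
        · exact h1
        · exact absurd h'.symm (hcon b a h1)
      have := hfin.to_subtype
      exact not_injective_infinite_finite _ hinj
    have h2 : n ^ (b - a) • c = c := by
      have h3 : n ^ b = n ^ a * n ^ (b - a) := by rw [← pow_add]; congr 1; omega
      rw [h3, mul_smul] at hne
      exact (MulAction.injective (n ^ a) hne).symm
    have := hst c
    have h4 : IsOfFinOrder (⟨n ^ (b - a), h2⟩ : MulAction.stabilizer N c) := isOfFinOrder_of_finite _
    have h5 : IsOfFinOrder (n ^ (b - a)) := MonoidHom.isOfFinOrder (MulAction.stabilizer N c).subtype h4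
    have h6 : IsOfFinOrder n := by
      rw [isOfFinOrder_pow] at h5
      rcases h5 with h5 | h5
      · exact h5
      · omega
    exact htf n h6
  obtain ⟨X0, -⟩ := Pool.Agent.Q224.ZD.res N U hfree c' rep' hrep'
  refine ⟨⟨X0⟩, fun X => ?_⟩
  by_contra hcon
  push Not at hcon
  have hEx : ∀ i, ExAt X (toRed N) i := fun i =>
    (exAt_iff X (toRed N) i).2 (hcon i)
  have hL := Pool.Agent.Q241.ZD.ltwo Pool.Agent.Q224.ZD.res N U hfree c' rep' hrep' X hEx
  have hPhi : PhiEx cs δ := hrada B M W cs Φ δ hδ hq3 U.E (fun i => U.bd i) κ k1 k2 k4 hL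
  have hW := hradb B M W cs Φ δ hδ q hq hq1 hq2 hPhi
  have hexact : (mkK cs hd hs E hS hl).Exact q := by
    intro F hFM hF0
    obtain ⟨F', h1, h2, h3⟩ := hW F (lp.memℓp F) (fun p b hb g hg =>
      hFM p (cs.simple b) ⟨b, by exact_mod_cast hb, rfl⟩ g (by rw [hl, hl]; exact hg))
      (fun p g => by
        have := congrFun hF0 (p, g)
        rw [dop_mkK] at this
        exact this)
    refine ⟨⟨F', h1⟩, ?_, ?_⟩
    · rintro p _ ⟨b, hb, rfl⟩ g hg
      rw [hl, hl] at hg
      exact h2 p b (by exact_mod_cast hb) g hg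
    · funext ⟨p, g⟩
      rw [dop_mkK]
      exact h3 p g
  obtain ⟨r, hr, hne⟩ := hlim B M W cs
  have hmain := engine' (mkK cs hd hs E hS hl) q (wt_of cs E hS hl hq) hexact _
    (wt_of cs E hS hl (weight_pow cs hr))
  apply hne
  rw [← hmain]
  refine Finset.sum_congr rfl fun p _ => ?_
  congr 1
  -- the two sums
  rw [Cx.wt]
  have hfinite := par_lo_finite cs p
  have := Fintype.ofFinite (par cs (p.lo : Set B))
  rw [finsum_eq_sum_of_fintype]
  symm
  refine Finset.sum_bij (fun (u : W) hu => (⟨u, ((mkK cs hd hs E hS hl).mem_U p u).1 hu⟩ :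
    par cs (p.lo : Set B))) ?_ ?_ ?_ ?_
  · intro u hu; exact Finset.mem_univ _
  · intro u hu v hv h; exact congrArg Subtype.val h
  · intro u _; exact ⟨u, ((mkK cs hd hs E hS hl).mem_U p u).2 u.2, rfl⟩
  · intro u hu; rfl

end

end Pool.Agent.Q169.ZD
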