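import Pool.Agent.H496R3.ZS.Weak

/-!
# Basic operators on `ℓ²(X)`: permutations of the coordinates and restrictions
-/

set_option autoImplicit false

open scoped InnerProductSpace

namespace Pool.Agent.Q169.ZD

open Pool.Agent.H496R3.ZS (Ell permIso dl dl_apply inner_dl_left)

noncomputable section

open scoped Classical

variable {X : Type}

/-- `F ↦ F ∘ σ` -/
def pm (σ : Equiv.Perm X) : Ell X →L[ℂ] Ell X := (permIso σ).toContinuousLinearMap

theorem pm_apply (σ : Equiv.Perm X) (F : Ell X) (p : X) : pm σ F p = F (σ p) := rfl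

theorem norm_pm_apply (σ : Equiv.Perm X) (F : Ell X) : ‖pm σ F‖ = ‖F‖ := (permIso σ).norm_map F

theorem memlp_msk (A : Set X) {f : X → ℂ} (hf : Memℓp f 2) :
    Memℓp (fun p => if p ∈ A then f p else 0) 2 := by
  have h2 : 0 < (2 : ENNReal).toReal := by norm_num
  rw [memℓp_gen_iff h2] at hf ⊢
  refine Summable.of_nonneg_of_le (fun p => by positivity) (fun p => ?_) hf
  by_cases hp : p ∈ A
  · simp [hp]
  · simp only [hp, if_false, norm_zero]
    rw [Real.zero_rpow h2.ne']
    positivity

/-- the restriction to `A` as a linear map -/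
def mskL (A : Set X) : Ell X →ₗ[ℂ] Ell X where
  toFun F := ⟨fun p => if p ∈ A then F p else 0, memlp_msk A (lp.memℓp F)⟩
  map_add' F G := by
    ext p
    change (if p ∈ A then (F + G) p else 0) = (if p ∈ A then F p else 0) + (if p ∈ A then G p else 0)
    by_cases hp : p ∈ A <;> simp [hp]
  map_smul' c F := by
    ext p
    change (if p ∈ A then (c • F) p else 0) = c • (if p ∈ A then F p else 0)
    by_cases hp : p ∈ A <;> simp [hp]

theorem mskL_apply (A : Set X) (F : Ell X) (p : X) : mskL A F p = if p ∈ A then F p else 0 := rfl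

theorem norm_mskL (A : Set X) (F : Ell X) : ‖mskL A F‖ ≤ 1 * ‖F‖ := by
  have h2 : 0 < (2 : ENNReal).toReal := by norm_num
  rw [one_mul]
  have h3 : ‖mskL A F‖ ^ (2 : ENNReal).toReal ≤ ‖F‖ ^ (2 : ENNReal).toReal := by
    rw [lp.norm_rpow_eq_tsum h2, lp.norm_rpow_eq_tsum h2]
    refine Summable.tsum_le_tsum (fun p => ?_) ((lp.memℓp _).summable h2) ((lp.memℓp _).summable h2)
    rw [mskL_apply]
    by_cases hp : p ∈ A
    · simp [hp]
    · simp only [hp, if_false, norm_zero]
      rw [Real.zero_rpow h2.ne']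
      positivity
  exact (Real.rpow_le_rpow_iff (norm_nonneg _) (norm_nonneg _) h2).1 h3

/-- the restriction to `A` (extended by zero) -/
def msk (A : Set X) : Ell X →L[ℂ] Ell X := (mskL A).mkContinuous 1 (norm_mskL A)

theorem msk_apply (A : Set X) (F : Ell X) (p : X) : msk A F p = if p ∈ A then F p else 0 := rfl

theorem norm_msk_apply_le (A : Set X) (F : Ell X) : ‖msk A F‖ ≤ ‖F‖ := by
  have := norm_mskL A F
  rw [one_mul] at this
  exact this

theorem ell_ext {F G : Ell X} (h : ∀ p, F p = G p) : F = G := Subtype.ext (funext h)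

theorem inner_dl (p : X) (F : Ell X) : ⟪dl p, F⟫_ℂ = F p := inner_dl_left p F

/-- an operator is determined by its matrix: the matrix coefficients of the adjoint -/
theorem adjoint_apply (T : Ell X →L[ℂ] Ell X) (F : Ell X) (p : X) :
    (ContinuousLinearMap.adjoint T) F p = ⟪T (dl p), F⟫_ℂ := by
  rw [← inner_dl p, ContinuousLinearMap.adjoint_inner_right]

theorem pm_dl (σ : Equiv.Perm X) (p : X) : pm σ (dl p) = dl (σ⁻¹ p) := by
  refine ell_ext fun r => ?_
  rw [pm_apply, dl_apply, dl_apply]
  have h : (σ r = p) = (r = σ⁻¹ p) := propext ⟨fun h => by rw [← h]; simp, fun h => by rw [h]; simp⟩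
  simp only [h]

theorem msk_dl (A : Set X) (p : X) : msk A (dl p) = if p ∈ A then dl p else 0 := by
  refine ell_ext fun r => ?_
  rw [msk_apply]
  by_cases hp : p ∈ A
  · rw [if_pos hp]
    by_cases hr : r = p
    · subst hr; rw [if_pos hp]
    · rw [dl_apply, if_neg hr]; simp
  · rw [if_neg hp]
    by_cases hr : r = p
    · subst hr; rw [if_neg hp]; rfl
    · rw [dl_apply, if_neg hr]
      have h0 : (0 : Ell X) r = 0 := rfl
      rw [h0]; simp

theorem adjoint_pm (σ : Equiv.Perm X) : ContinuousLinearMap.adjoint (pm σ) = pm σ⁻¹ := by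
  refine ContinuousLinearMap.ext fun F => ell_ext fun p => ?_
  rw [adjoint_apply, pm_dl, inner_dl, pm_apply]

theorem adjoint_msk (A : Set X) : ContinuousLinearMap.adjoint (msk A) = msk A := by
  refine ContinuousLinearMap.ext fun F => ell_ext fun p => ?_
  rw [adjoint_apply, msk_dl, msk_apply]
  by_cases hp : p ∈ A
  · rw [if_pos hp, if_pos hp, inner_dl]
  · rw [if_neg hp, if_neg hp, inner_zero_left]

end

end Pool.Agent.Q169.ZD
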