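import Pool.Agent.Q169.ZD.Ops

/-!
# Project ZD: zero in the spectrum by deformation of the Hecke parameters. Part 1: the engine

Fixed data: a group `G` with a length function as for an extended Coxeter group (`Ext`), a weight
function `q : G → ℝ` (`Wt`), and a finite cochain complex `Cx` whose terms are the spaces
`M_T(q) ⊆ ℓ²(G)`.

Jobs (statements `S_...`): PROJ, CONT, RIGHT, COMMD, COMMP, TRACE, GAP, SUPER, ANA, DPROP.
In the docstrings `e_(j,g) = dl (j, g)` is the basis vector, `q_t = q t`, `ℓ = E.len`.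
-/

set_option autoImplicit false

open scoped InnerProductSpace

namespace Pool.Agent.Q169.ZD

open Pool.Agent.H496R3.ZS (Ell permIso dl dl_apply inner_dl_left)

noncomputable section

open scoped Classical

/-- An extended Coxeter group `G = W ⋊ H` with simple reflections `S ⊆ W` and the length function
`len (w h) = ℓ(w)`: the properties which are used. -/
structure Ext (G : Type) [Group G] where
  S : Set G
  len : G → ℕ
  sq : ∀ s ∈ S, s * s = 1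
  len_one : len 1 = 0
  len_inv : ∀ g, len g⁻¹ = len g
  len_mul : ∀ g h, len (g * h) ≤ len g + len h
  len_smul : ∀ s ∈ S, ∀ g, len (s * g) = len g + 1 ∨ len (s * g) + 1 = len g
  len_muls : ∀ s ∈ S, ∀ g, len (g * s) = len g + 1 ∨ len (g * s) + 1 = len g
  conj : ∀ h, len h = 0 → ∀ s ∈ S, h * s * h⁻¹ ∈ S
  desc : ∀ g, len g ≠ 0 → ∃ s ∈ S, len (g * s) < len g
  lift : ∀ s ∈ S, ∀ t ∈ S, ∀ g, len g < len (t * g) → len g < len (g * s) →
    len (t * g * s) < len (t * g) → t * g = g * s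
  par_decomp : ∀ T : Set G, T ⊆ S → ∀ g, ∃ u ∈ Subgroup.closure T, ∃ m,
    (∀ t ∈ T, len m < len (t * m)) ∧ g = u * m
  par_len : ∀ T : Set G, T ⊆ S → ∀ u ∈ Subgroup.closure T, ∀ m,
    (∀ t ∈ T, len m < len (t * m)) → len (u * m) = len u + len m
  par_desc : ∀ T : Set G, T ⊆ S → ∀ u ∈ Subgroup.closure T, u ≠ 1 → ∃ t ∈ T, len (t * u) < len u

/-- Weight functions on an extended Coxeter group. -/
structure Wt {G : Type} [Group G] (E : Ext G) (q : G → ℝ) : Prop where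
  pos : ∀ g, 0 < q g
  one : q 1 = 1
  zero_mul : ∀ h, E.len h = 0 → ∀ g, q (h * g) = q g
  mul_zero : ∀ h, E.len h = 0 → ∀ g, q (g * h) = q g
  mul : ∀ s ∈ E.S, ∀ g, E.len g < E.len (g * s) → q (g * s) = q g * q s
  smul : ∀ s ∈ E.S, ∀ g, E.len g < E.len (s * g) → q (s * g) = q s * q g

/-- The coboundary of a cochain complex with the coefficients `D j k ∈ ℤ[G]`, on all functions:
`(dop D F) (j, g) = ∑ k, ∑ h, D j k h * F (k, h⁻¹ g)`. -/
def dop {G I : Type} [Group G] [Fintype I] (D : I → I → (G →₀ ℤ)) (F : I × G → ℂ) : I × G → ℂ :=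
  fun p => ∑ k, ∑ h ∈ (D p.1 k).support, ((D p.1 k h : ℤ) : ℂ) * F (k, h⁻¹ * p.2)

/-- A finite cochain complex of the type considered: `I` is the (finite) set of cells modulo `H`,
`T j` the set of the reflections which fix the cell `j`, `deg j` its dimension, and `D j k h` the
incidence number of `j` and `h k`. -/
structure Cx {G : Type} [Group G] (E : Ext G) (I : Type) [Fintype I] where
  T : I → Set G
  sub : ∀ j, T j ⊆ E.S
  fin : ∀ j, ((Subgroup.closure (T j) : Subgroup G) : Set G).Finite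
  deg : I → ℕ
  D : I → I → (G →₀ ℤ)
  D_len : ∀ j k h, D j k h ≠ 0 → E.len h = 0
  D_deg : ∀ j k h, D j k h ≠ 0 → deg j = deg k + 1
  D_mir : ∀ j k h, D j k h ≠ 0 → ∀ t ∈ T j, h⁻¹ * t * h ∈ T k
  D_sq : ∀ F : I × G → ℂ, dop D (dop D F) = 0

section

variable {G : Type} [Group G] {E : Ext G} {I : Type} [Fintype I] (C : Cx E I)

/-- the finite group generated by `T j` as a finite set -/
def Cx.U (j : I) : Finset G := (C.fin j).toFinset

theorem Cx.mem_U (j : I) (g : G) : g ∈ C.U j ↔ g ∈ Subgroup.closure (C.T j) := by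
  rw [Cx.U, Set.Finite.mem_toFinset]; rfl

/-- the growth sum `∑_{u ∈ W_T} q u` -/
def Cx.wt (q : G → ℝ) (j : I) : ℝ := ∑ u ∈ C.U j, q u

/-- The condition which defines the space `M(q)`: `F (j, t g) = √q_t F (j, g)` for all `t ∈ T j`
with `ℓ(t g) > ℓ(g)`. -/
def InM (q : G → ℝ) (F : I × G → ℂ) : Prop :=
  ∀ j, ∀ t ∈ C.T j, ∀ g, E.len g < E.len (t * g) →
    F (j, t * g) = ((Real.sqrt (q t) : ℝ) : ℂ) * F (j, g)

/-- left multiplication by `h` on `I × G` -/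
def lm (I : Type) {G : Type} [Group G] (h : G) : Equiv.Perm (I × G) :=
  Equiv.prodCongr (Equiv.refl I) (Equiv.mulLeft h)

/-- right multiplication by `h` on `I × G` -/
def rm (I : Type) {G : Type} [Group G] (h : G) : Equiv.Perm (I × G) :=
  Equiv.prodCongr (Equiv.refl I) (Equiv.mulRight h)

omit [Fintype I] in
theorem lm_apply (h : G) (p : I × G) : lm I h p = (p.1, h * p.2) := rfl
omit [Fintype I] in
theorem rm_apply (h : G) (p : I × G) : rm I h p = (p.1, p.2 * h) := rfl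

/-- the `W_T`-component `u` of `g = u m`, `m` minimal in `W_T g`, `T = T j` -/
def Cx.up (j : I) (g : G) : G := Classical.choose (E.par_decomp (C.T j) (C.sub j) g)

/-- the coboundary as a bounded operator on `ℓ²(I × G)` -/
def Cx.Dh : Ell (I × G) →L[ℂ] Ell (I × G) :=
  ∑ j, ∑ k, ∑ h ∈ (C.D j k).support, ((C.D j k h : ℤ) : ℂ) •
    (msk {p : I × G | p.1 = j} ∘L pm (Equiv.prodCongr (Equiv.swap j k) (Equiv.mulLeft h⁻¹)))

/-- the adjoint of `Dh` -/
def Cx.Ds : Ell (I × G) →L[ℂ] Ell (I × G) := ContinuousLinearMap.adjoint C.Dh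

/-- the projection onto `M(q)`: `(P F) (j, u m) = √q_u / W_T(q) * ∑_{v ∈ W_T} √q_v F (j, v m)` -/
def Cx.P (q : G → ℝ) : Ell (I × G) →L[ℂ] Ell (I × G) :=
  ∑ j, ∑ u ∈ C.U j, ∑ v ∈ C.U j,
    ((Real.sqrt (q u) * Real.sqrt (q v) / C.wt q j : ℝ) : ℂ) •
      (msk {p : I × G | p.1 = j ∧ C.up j p.2 = u} ∘L pm (lm I (v * u⁻¹)))

/-- the right Hecke operator of the simple reflection `s` -/
def rS (E : Ext G) (I : Type) (q : G → ℝ) (s : G) : Ell (I × G) →L[ℂ] Ell (I × G) :=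
  ((Real.sqrt (q s) : ℝ) : ℂ) • pm (rm I s) +
    ((q s - 1 : ℝ) : ℂ) • msk {p : I × G | E.len (p.2 * s) < E.len p.2}

/-- right translation by `h` -/
def rH (I : Type) (h : G) : Ell (I × G) →L[ℂ] Ell (I × G) := pm (rm I h)

/-- operators which commute with the right Hecke operators and the right translations by `H` -/
def Comm (E : Ext G) (I : Type) (q : G → ℝ) (x : Ell (I × G) →L[ℂ] Ell (I × G)) : Prop :=
  (∀ s ∈ E.S, x ∘L rS E I q s = rS E I q s ∘L x) ∧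
    ∀ h, E.len h = 0 → x ∘L rH I h = rH I h ∘L x

/-- operators which preserve the finitely supported functions -/
def FS {X : Type} (x : Ell X →L[ℂ] Ell X) : Prop :=
  ∀ F : Ell X, (Function.support (fun p => F p)).Finite → (Function.support (fun p => x F p)).Finite

/-- the grading operator -/
def Cx.eps : Ell (I × G) →L[ℂ] Ell (I × G) :=
  msk {p : I × G | Even (C.deg p.1)} - msk {p : I × G | ¬ Even (C.deg p.1)}

/-- the trace -/
def Tr (x : Ell (I × G) →L[ℂ] Ell (I × G)) : ℂ := ∑ j : I, (x (dl (j, 1)) : I × G → ℂ) (j, 1)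

/-- exactness of the complex `M(q)` -/
def Cx.Exact (q : G → ℝ) : Prop :=
  ∀ F : Ell (I × G), InM C q F → dop C.D F = 0 →
    ∃ F' : Ell (I × G), InM C q F' ∧ dop C.D F' = F

end

/-! ### The jobs -/

/-- **JOB UP.** The decomposition `g = up g * m`: (1) `up j g ∈ W_T`; (2) `m = (up j g)⁻¹ g` is
minimal; (3) `up (v g) = v (up g)` for `v ∈ W_T`; (4) `up j 1 = 1`; (5) `len g < len (t g)` iff
`len (up g) < len (t (up g))` for `t ∈ T`; (6) for a weight function `q` and `F ∈ M(q)`: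
`F (j, g) = √q_(up g) F (j, (up g)⁻¹ g)`; (7) conversely, if this holds for all `j, g` then
`F ∈ M(q)`.

PROOF. (1), (2): specification of the choice (`Classical.choose_spec` of `E.par_decomp`).
Uniqueness: if `g = u m = u' m'` with `u, u' ∈ W_T := closure T` and `m, m'` minimal (i.e.
`len m < len (t m)` for `t ∈ T`), then `m' = (u'⁻¹ u) m`, so by `E.par_len`
`len m' = len (u'⁻¹ u) + len m ≥ len m`, by symmetry `len m' = len m`, so `len (u'⁻¹ u) = 0`, and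
`u'⁻¹ u = 1` (otherwise `E.par_desc` gives `t` with `len (t x) < len x = 0`). (3): apply uniqueness
to `v g = (v up g) m`. (4): `1 = 1 * 1`, and `1` is minimal: for `t ∈ T ⊆ S`,
`len (t 1) = len 1 + 1` or `len (t 1) + 1 = len 1 = 0` (`len_smul`), the second is impossible.
(5): `g = u m`, `t g = (t u) m`, and by `par_len` `len g = len u + len m`,
`len (t g) = len (t u) + len m`. (6): Prove for all `u ∈ W_T` and all minimal `m`:
`F (j, u m) = √q_u F (j, m)`, by strong induction on `len u`. `u = 1`: `q 1 = 1`. `u ≠ 1`: take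
`t ∈ T` with `len (t u) < len u`, `u' = t u`, `u = t u'` (`E.sq`), so `len u' < len (t u')`,
`len (u' m) < len (t u' m)` by `par_len`, `F (j, t u' m) = √q_t F (j, u' m) = √q_t √q_(u') F (j, m)`
and `q u = q_t q_(u')` by `Wt.smul`, `Real.sqrt_mul`. (7): `t ∈ T`, `len g < len (t g)`, `u = up g`,
`up (t g) = t u`, `(t u)⁻¹ (t g) = u⁻¹ g`, `len u < len (t u)` by (5), `q (t u) = q_t q_u`. -/
def S_UP (G : Type) [Group G] (E : Ext G) (I : Type) [Fintype I] (C : Cx E I) : Prop :=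
  (∀ j g, C.up j g ∈ Subgroup.closure (C.T j)) ∧
  (∀ j g, ∀ t ∈ C.T j, E.len ((C.up j g)⁻¹ * g) < E.len (t * ((C.up j g)⁻¹ * g))) ∧
  (∀ j g, ∀ v ∈ Subgroup.closure (C.T j), C.up j (v * g) = v * C.up j g) ∧
  (∀ j, C.up j 1 = 1) ∧
  (∀ j g, ∀ t ∈ C.T j, E.len g < E.len (t * g) ↔ E.len (C.up j g) < E.len (t * C.up j g)) ∧
  (∀ (q : G → ℝ), Wt E q → ∀ F : I × G → ℂ, InM C q F ↔
    ∀ j g, F (j, g) = ((Real.sqrt (q (C.up j g)) : ℝ) : ℂ) * F (j, (C.up j g)⁻¹ * g))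

/-- **JOB PROJ** (hypothesis: UP). Properties of `P = P(q)` for a weight function `q`:
(0) formula; (1) `P F ∈ M(q)`; (2) `P F = F` for `F ∈ M(q)`; (3) `P` is self-adjoint;
(4) `(P e_(j,1))(j,1) = 1 / ∑_{u ∈ W_T} q u`; (5) `P` preserves finite supports; (6) `P` commutes
with the restriction to `A × G`, `A ⊆ I`.

PROOF. (0) Evaluate the definition at `(j, g)`: only the summands with the given `j` and
`u = up j g` contribute: `(P F)(j, g) = ∑_{v ∈ U j} √q_u √q_v / wt * F (j, v u⁻¹ g)`, `u = up j g`.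
(`pm_apply`, `msk_apply`, `lm_apply`; sum of operators applied to `F` and evaluated.)
(1) Use (6) of UP in the direction from right to left: with `u = up j g`, `m = u⁻¹ g`, by (0)
`(P F)(j, g) = √q_u * β(m)`, `β(m) = ∑_v √q_v / wt * F (j, v m)`, and at `m`: `up j m = 1`
(by (3) of UP: `up (u⁻¹ g) = u⁻¹ up g = 1`), so `(P F)(j, m) = √q_1 β(m) = β(m)`.
(2) `F ∈ M(q)`: `F (j, v m) = √q_v F (j, m)` (as `up (v m) = v`), so
`(P F)(j, u m) = √q_u / wt * ∑_v √q_v √q_v F (j, m) = √q_u F (j, m) = F (j, u m)`, using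
`√q_v √q_v = q_v` and `wt = ∑ q_v ≠ 0` (positive, `1 ∈ U j`).
(3) `adjoint` of the sum; `adjoint (c • (msk A ∘ pm σ)) = conj c • (pm σ⁻¹ ∘ msk A)`
(`adjoint_pm`, `adjoint_msk`, `ContinuousLinearMap.adjoint_comp`), `c` is real, and
`pm (lm (v u⁻¹))⁻¹ ∘ msk {p.1 = j, up j p.2 = u} = msk {p.1 = j, up j p.2 = v} ∘ pm (lm (u v⁻¹))`:
evaluate at `(j', g)`: the left side is `F (j', u v⁻¹ g)` if `j' = j` and `up j (u v⁻¹ g) = u`, i.e.
`u v⁻¹ up j g = u`, i.e. `up j g = v`. Then exchange the summation over `u` and `v`. Alternatively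
use `adjoint_apply` and (0).
(4) from (0): `u = up j 1 = 1`, `dl (j, 1) (j, v) = 1` iff `v = 1`, `q 1 = 1`.
(5) A finite sum of operators `c • (msk ∘ pm σ)`, each preserves finite supports.
(6) evaluate (0). -/
def S_PROJ (G : Type) [Group G] (E : Ext G) (I : Type) [Fintype I] (C : Cx E I) : Prop :=
  ∀ q : G → ℝ, Wt E q →
    (∀ F : Ell (I × G), InM C q (C.P q F)) ∧
    (∀ F : Ell (I × G), InM C q F → C.P q F = F) ∧
    ContinuousLinearMap.adjoint (C.P q) = C.P q ∧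
    (∀ j, (C.P q (dl (j, 1)) : I × G → ℂ) (j, 1) = ((1 / C.wt q j : ℝ) : ℂ)) ∧
    FS (C.P q) ∧
    ∀ A : Set I, C.P q ∘L msk {p : I × G | p.1 ∈ A} = msk {p : I × G | p.1 ∈ A} ∘L C.P q

/-- **JOB CONT.** For weight functions `q₀`, `p` the functions `q^(t) g = q₀ g * (p g) ^ t` are
weight functions, and `t ↦ P(q^(t))` is continuous in the operator norm.

PROOF. `Real.rpow` of positive numbers: `Real.mul_rpow`, `Real.one_rpow`, `Real.rpow_pos_of_pos`.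
Continuity: `C.P` is a finite sum of fixed operators with coefficients
`√(q^(t) u) √(q^(t) v) / ∑_w q^(t) w`, which are continuous in `t` because the denominator is
positive (`1 ∈ C.U j`) and `t ↦ (p g) ^ t` is continuous for `p g > 0`
(`Real.continuous_const_rpow`). -/
def S_CONT (G : Type) [Group G] (E : Ext G) (I : Type) [Fintype I] (C : Cx E I) : Prop :=
  ∀ q₀ p : G → ℝ, Wt E q₀ → Wt E p →
    (∀ t : ℝ, Wt E (fun g => q₀ g * p g ^ t)) ∧
    Continuous fun t : ℝ => C.P (fun g => q₀ g * p g ^ t)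

/-- **JOB RIGHT.** Properties of the right operators: adjoints, and they preserve `M(q)`.

PROOF. Adjoints: `adjoint_pm`, `adjoint_msk`, real coefficients, `(rm s)⁻¹ = rm s⁻¹ = rm s` as
`s * s = 1`. `M(q)` is preserved by `rS`: let `F ∈ M(q)`, `t ∈ T j`, `len g < len (t g)`, and
`R F (j, g) = √q_s F (j, g s) + [len (g s) < len g] (q_s - 1) F (j, g)`. To prove:
`R F (j, t g) = √q_t R F (j, g)`. Cases (`E.len_muls`, `E.len_smul` say that lengths change by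
exactly one):
(i) `len (g s) > len g`, `len (t g s) > len (t g)`: then `len (t (g s)) = len g + 2 > len (g s)`, so
`F (j, t g s) = √q_t F (j, g s)`.
(ii) `len (g s) > len g`, `len (t g s) < len (t g)`: then `t g = g s` by `E.lift`; hence
`q_t q_g = q (t g) = q (g s) = q_g q_s`, `q_t = q_s =: x`, and `t g s = g`. So
`R F (j, t g) = √x F (j, g) + (x - 1) F (j, t g) = (√x + (x - 1) √x) F (j, g) = x √x F (j, g)` and
`√q_t R F (j, g) = √x √x F (j, g s) = x F (j, t g) = x √x F (j, g)`.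
(iii) `len (g s) < len g`, `len (t g s) < len (t g)`: `len (g s) = len g - 1 < len g =
len (t g s)`, so `F (j, t (g s)) = √q_t F (j, g s)`.
(iv) `len (g s) < len g`, `len (t g s) > len (t g)`: impossible, since
`len (t (g s)) ≤ len (g s) + 1 = len g < len (t g)`.
`rH`: `len (g h) = len g` if `len h = 0` (`E.len_mul` and `E.len_inv`). -/
def S_RIGHT (G : Type) [Group G] (E : Ext G) (I : Type) [Fintype I] (C : Cx E I) : Prop :=
  ∀ q : G → ℝ, Wt E q →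
    (∀ s ∈ E.S, ContinuousLinearMap.adjoint (rS E I q s) = rS E I q s) ∧
    (∀ h : G, ContinuousLinearMap.adjoint (rH I h) = rH I h⁻¹) ∧
    (∀ s ∈ E.S, ∀ F : Ell (I × G), InM C q F → InM C q (rS E I q s F)) ∧
    (∀ h, E.len h = 0 → ∀ F : Ell (I × G), InM C q F → InM C q (rH I h F))

/-- **JOB COMM** (hypotheses: RIGHT, PROJ). The operators `P(q)`, `Dh`, `Ds`, `msk {p.1 ∈ A}`
commute with the right operators.

PROOF. `Dh`: it is a sum of operators `c • (msk {p.1 = j} ∘ pm (swap j k × h⁻¹ ·))` with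
`len h = 0` (`D_len`); `pm (... h⁻¹ ·)` commutes with `pm (rm s)` (left and right multiplications
commute), and with `msk {len (p.2 s) < len p.2}` since `len (h⁻¹ g s) = len (g s)` and
`len (h⁻¹ g) = len g`; `msk {p.1 = j}` commutes with `pm (rm s)` and with every `msk`. `Ds`: take
adjoints of the relations for `Dh`, using that the adjoint of `rS` is `rS`, of `rH h` is `rH h⁻¹`,
`len h⁻¹ = len h = 0`. `P = P(q)`: let `R` be `rS` (or `rH h`). For all `F`: `P F ∈ M(q)`, so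
`R P F ∈ M(q)`, so `P R P F = R P F`; hence `P R P = R P`, also for the adjoint of `R`
(`rS`, or `rH h⁻¹`), and taking adjoints `P R P = P R`. So `P R = R P`. -/
def S_COMM (G : Type) [Group G] (E : Ext G) (I : Type) [Fintype I] (C : Cx E I) : Prop :=
  ∀ q : G → ℝ, Wt E q →
    Comm E I q (C.P q) ∧ Comm E I q C.Dh ∧ Comm E I q C.Ds ∧
    ∀ A : Set I, Comm E I q (msk {p : I × G | p.1 ∈ A})

/-- **JOB TRACE.** `Tr (x y) = Tr (y x)` for operators which commute with the right operators and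
preserve finite supports.

PROOF. Step 1: for every `g` there is an operator `ρ` on `ℓ²(I × G)` which commutes with every `x`
satisfying `Comm E I q x`, such that for all `j`, `x`: if `len (x g) = len x + len g` then
`ρ e_(j,x) = e_(j,x g)`, and if `len (x g⁻¹) = len x + len g` then `ρ* e_(j,x) = e_(j,x g⁻¹)`.
Induction on `len g`. `len g = 0`: `ρ = rH g⁻¹`, `ρ* = rH g` (`pm_dl`). `len g > 0`: choose
`s ∈ S` with `len (g s) < len g` (`E.desc`), `g' = g s`, `g = g' s`, `len g = len g' + 1`,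
`ρ = (√q_s)⁻¹ • rS s ∘ ρ'`, so `ρ* = (√q_s)⁻¹ • ρ'* ∘ rS s`. Observe: if `len (y s) > len y` then
`rS s e_(j,y) = √q_s e_(j,y s)` (evaluate at `(j, z)`: `√q_s [z s = y] + [len (z s) < len z]
(q_s - 1) [z = y]`). For `x` with `len (x g) = len x + len g`: `len (x g') = len x + len g'` (by
`len_mul`: `len (x g') ≤ len x + len g'`, and `len (x g') ≥ len (x g) - 1`), `ρ' e_x = e_(x g')`,
`len (x g' s) > len (x g')`, so `ρ e_x = e_(x g' s) = e_(x g)`. For `x` with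
`len (x g⁻¹) = len x + len g`: `g⁻¹ = s g'⁻¹` (`s⁻¹ = s`), `len (x s g'⁻¹) ≤ len (x s) + len g'`
gives `len (x s) = len x + 1` and `len ((x s) g'⁻¹) = len (x s) + len g'`, so
`ρ* e_x = ρ'* e_(x s) = e_(x s g'⁻¹) = e_(x g⁻¹)`.
Step 2: for `x` with `Comm` write `x e_(j,1) = ∑_(k,g) a_(k,g),j e_(k,g)` (finite sum, by `FS`
applied to `e_(j,1)`) and `y e_(j,1) = ∑ b_(k,g),j e_(k,g)`. Then
`y x e_(j,1) = ∑ a_(k,g),j y ρ_g e_(k,1) = ∑ a_(k,g),j ρ_g y e_(k,1)`, and its coefficient at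
`(j,1)` is `∑ a_(k,g),j ⟪e_(j,1), ρ_g y e_(k,1)⟫ = ∑ a_(k,g),j ⟪ρ_g* e_(j,1), y e_(k,1)⟫ =
∑ a_(k,g),j ⟪e_(j,g⁻¹), y e_(k,1)⟫ = ∑ a_(k,g),j b_(j,g⁻¹),k`. So
`Tr (y x) = ∑_(j,k) ∑_g a_(k,g),j b_(j,g⁻¹),k` (a finite sum; let `g` run over a finite set
containing all `g` with `a_(k,g),j ≠ 0` or `b_(k,g⁻¹),j ≠ 0`), which is symmetric in `x`, `y`
(exchange `j`, `k` and `g`, `g⁻¹`). -/
def S_TRACE (G : Type) [Group G] (E : Ext G) (I : Type) [Fintype I] : Prop :=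
  ∀ q : G → ℝ, Wt E q → ∀ x y : Ell (I × G) →L[ℂ] Ell (I × G),
    Comm E I q x → Comm E I q y → FS x → FS y → Tr (x ∘L y) = Tr (y ∘L x)

/-- **JOB GAP.** Let `P` be a self-adjoint idempotent and `D` a bounded operator on a Hilbert space
with `P D P = D P`, `D D P = 0`, and suppose that `P x = x`, `D x = 0` implies `x = D y` for some
`y` with `P y = y`. Then there is `K > 0` with `‖x‖ ≤ K (‖D x‖ + ‖P D* x‖)` for all `x = P x`.

PROOF. `M = {x | P x = x}` and `Z = {x ∈ M | D x = 0}` are closed subspaces, hence complete, and `D`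
induces a bounded surjection `M → Z`. By the open mapping theorem
(`ContinuousLinearMap.exists_preimage_norm_le`) there is `C > 0` such that each `z ∈ Z` is `D y`
with `y ∈ M`, `‖y‖ ≤ C ‖z‖`. Let `x ∈ M`. Choose `x' ∈ M` with `D x' = D x`, `‖x'‖ ≤ C ‖D x‖`
(`D x ∈ Z` because `P D x = P D P x = D P x = D x` and `D D x = 0`). Then `x - x' ∈ Z`, so
`x - x' = D w`, `w ∈ M`, `‖w‖ ≤ C ‖x - x'‖ ≤ C (‖x‖ + C ‖D x‖)`. Now
`‖x‖² = Re ⟪x, x'⟫ + Re ⟪x, D w⟫ ≤ ‖x‖ C ‖D x‖ + ‖P D* x‖ ‖w‖` because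
`⟪x, D w⟫ = ⟪D* x, w⟫ = ⟪D* x, P w⟫ = ⟪P D* x, w⟫`. Since `‖D x‖ ≤ ‖D‖ ‖x‖`,
`‖w‖ ≤ C (1 + C ‖D‖) ‖x‖`; divide by `‖x‖`: `K = C (1 + C ‖D‖) + C` will do. -/
def S_GAP (V : Type) [NormedAddCommGroup V] [InnerProductSpace ℂ V] [CompleteSpace V] : Prop :=
  ∀ P D : V →L[ℂ] V, P ∘L P = P → ContinuousLinearMap.adjoint P = P →
    P ∘L D ∘L P = D ∘L P → D ∘L D ∘L P = 0 →
    (∀ x, P x = x → D x = 0 → ∃ y, P y = y ∧ D y = x) →
    ∃ K : ℝ, 0 < K ∧ ∀ x, P x = x → ‖x‖ ≤ K * (‖D x‖ + ‖P (ContinuousLinearMap.adjoint D x)‖)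

/-- **JOB SMALL.** In the situation of GAP, let `A c := P - c • (P D* D P + D P D*)`. Then there is
a real number `c ≠ 0` with `‖A c‖ < 1`.

PROOF. Put `Δ = P D* D P + D P D*`. Then `Δ = P Δ P` (`P D P = D P`, hence by adjoints
`P D* P = P D*`, so `D P D* P = D P P D* P = D P D*` and `P D P D* = D P D*`). For `x = P x`:
`Re ⟪Δ x, x⟫ = ‖D x‖² + ‖P D* x‖²` (`⟪P D* D P x, x⟫ = ⟪D x, D x⟫`, `⟪D P D* x, x⟫ =
⟪P D* x, D* x⟫ = ⟪P D* x, P D* x⟫`), which is at least `δ ‖x‖²` with `δ = 1 / (2 K²)` as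
`(a + b)² ≤ 2 (a² + b²)`. Let `L = ‖Δ‖ + 1`, `c = δ / L²`. For `x = P x`,
`‖x - c Δ x‖² = ‖x‖² - 2 c Re ⟪Δ x, x⟫ + c² ‖Δ x‖² ≤ (1 - 2 c δ + c² L²) ‖x‖² =
(1 - δ² / L²) ‖x‖²`. For arbitrary `x`: `A c x = A c (P x)` and `‖P x‖ ≤ ‖x‖`. So
`‖A c‖² ≤ max 0 (1 - δ² / L²) < 1`. -/
def S_SMALL (V : Type) [NormedAddCommGroup V] [InnerProductSpace ℂ V] [CompleteSpace V] : Prop :=
  ∀ P D : V →L[ℂ] V, P ∘L P = P → ContinuousLinearMap.adjoint P = P →
    P ∘L D ∘L P = D ∘L P →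
    ∀ K : ℝ, 0 < K →
    (∀ x, P x = x → ‖x‖ ≤ K * (‖D x‖ + ‖P (ContinuousLinearMap.adjoint D x)‖)) →
    ∃ c : ℝ, c ≠ 0 ∧ ‖P - (c : ℂ) • (P ∘L ContinuousLinearMap.adjoint D ∘L D ∘L P +
      D ∘L P ∘L ContinuousLinearMap.adjoint D)‖ < 1

/-- **JOB SUPER.** Let `𝒜` be a set of operators closed under sums, products and scalars, and
`τ` a linear functional on all operators with `τ (x y) = τ (y x)` for `x, y ∈ 𝒜` and
`|τ x| ≤ K ‖x‖`. Let `P, D, D', ε ∈ 𝒜`, `P² = P`, `P D P = D P`, `P D' P = P D'`, `D D P = 0`,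
`P D' D' = 0`, `ε P = P ε`, `ε D = - D ε`, `ε D' = - D' ε`, and
`‖P - c (P D' D P + D P D')‖ < 1`, `c ≠ 0` not needed. Then `τ (ε P) = 0`.

PROOF. `d = D P`, `d' = P D'`, so `P d = d = d P`, `P d' = d' = d' P`, `d d = 0`, `d' d' = 0`,
`Δ := P D' D P + D P D' = d' d + d d'`, `Δ d = d d' d = d Δ`, `Δ d' = d' d d' = d' Δ`,
`P Δ = Δ = Δ P`. `X = P - c Δ`: `X d = d X`, `X d' = d' X`, `X P = X = P X`. Put `Y_0 = P`,
`Y_(n+1) = Y_n X`. Then `Y_n` commutes with `d`, `d'`, `Y_n P = Y_n`, and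
`Y_n - Y_(n+1) = Y_n (P - X) = c Y_n Δ`. Also `ε d' = - d' ε`. All these operators are in `𝒜`. Now
`τ (ε Y_n d d') = τ ((ε Y_n d) d') = τ (d' (ε Y_n d)) = - τ (ε d' Y_n d) = - τ (ε Y_n d' d)`, so
`τ (ε Y_n Δ) = 0` and `τ (ε Y_n) = τ (ε Y_(n+1))` for all `n`. Since
`‖Y_n‖ ≤ ‖P‖ ‖X‖ ^ n → 0` and `|τ (ε Y_n)| ≤ K ‖ε‖ ‖Y_n‖`, `τ (ε P) = 0`. -/
def S_SUPER (V : Type) [NormedAddCommGroup V] [NormedSpace ℂ V] : Prop :=
  ∀ (𝒜 : Set (V →L[ℂ] V)) (τ : (V →L[ℂ] V) →ₗ[ℂ] ℂ) (K : ℝ),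
    (∀ x ∈ 𝒜, ∀ y ∈ 𝒜, x + y ∈ 𝒜) → (∀ x ∈ 𝒜, ∀ y ∈ 𝒜, x ∘L y ∈ 𝒜) →
    (∀ (a : ℂ), ∀ x ∈ 𝒜, a • x ∈ 𝒜) →
    (∀ x ∈ 𝒜, ∀ y ∈ 𝒜, τ (x ∘L y) = τ (y ∘L x)) → (∀ x, ‖τ x‖ ≤ K * ‖x‖) →
    ∀ P D D' ε : V →L[ℂ] V, P ∈ 𝒜 → D ∈ 𝒜 → D' ∈ 𝒜 → ε ∈ 𝒜 →
    P ∘L P = P → P ∘L D ∘L P = D ∘L P → P ∘L D' ∘L P = P ∘L D' →
    D ∘L D ∘L P = 0 → P ∘L D' ∘L D' = 0 →
    ε ∘L P = P ∘L ε → ε ∘L D = - (D ∘L ε) → ε ∘L D' = - (D' ∘L ε) →
    ∀ c : ℂ, ‖P - c • (P ∘L D' ∘L D ∘L P + D ∘L P ∘L D')‖ < 1 → τ (ε ∘L P) = 0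

/-- **JOB ANA.** An identity theorem for exponential sums in the denominators.

PROOF. `t ↦ b ^ t = exp (t log b)` is analytic on `ℝ` for `b > 0`, the denominators are positive
(nonempty sums of positive numbers), so `f` is analytic on `ℝ`; it vanishes near `0`, hence
everywhere (`AnalyticOnNhd.eqOn_zero_of_preconnected_of_eventuallyEq_zero`, `ℝ` is preconnected). -/
def S_ANA : Prop :=
  ∀ (I G : Type) [Fintype I] (U : I → Finset G) (a b : G → ℝ) (σ : I → ℝ),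
    (∀ g, 0 < a g) → (∀ g, 0 < b g) → (∀ j, (U j).Nonempty) →
    (∃ η > 0, ∀ t : ℝ, |t| < η → ∑ j, σ j / ∑ u ∈ U j, a u * b u ^ t = 0) →
    ∀ t : ℝ, ∑ j, σ j / ∑ u ∈ U j, a u * b u ^ t = 0

/-- **JOB DPROP.** Properties of `Dh`, `Ds`, `eps`.

PROOF. Formula: evaluate the definition of `Dh` at `(j, g)`; only the summands with this `j`
contribute, and `swap j k j = k`. `Dh` preserves `M(q)`: for `t ∈ T j`, `len g < len (t g)`:
`F (k, h⁻¹ t g) = F (k, (h⁻¹ t h) h⁻¹ g) = √q_(h⁻¹ t h) F (k, h⁻¹ g)` for `D j k h ≠ 0`, because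
`h⁻¹ t h ∈ T k` (`D_mir`), `len h = 0`, so `len (h⁻¹ g) = len g < len (t g) = len (h⁻¹ t g)`
(`len_mul`, `len_inv`), and `q (h⁻¹ t h) = q t` by `Wt.zero_mul`, `Wt.mul_zero`. `Dh Dh = 0` from
`D_sq` and the formula. `FS`: finite sums of `c • (msk ∘ pm σ)`; for `Ds` take the adjoint of the
sum: `adjoint (c • (msk A ∘ pm σ)) = conj c • (pm σ⁻¹ ∘ msk A)`. `eps` anticommutes with `Dh`: in
the summand `(j, k, h)` (with `D j k h ≠ 0`) `deg j = deg k + 1`: evaluate at `(j, g)`. Adjoint: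
`eps` is self-adjoint, so it anticommutes with `Ds` too. -/
def S_DPROP (G : Type) [Group G] (E : Ext G) (I : Type) [Fintype I] (C : Cx E I) : Prop :=
  (∀ (F : Ell (I × G)) p, C.Dh F p = dop C.D F p) ∧
  (∀ q : G → ℝ, Wt E q → ∀ F : Ell (I × G), InM C q F → InM C q (C.Dh F)) ∧
  C.Dh ∘L C.Dh = 0 ∧ FS C.Dh ∧ FS C.Ds ∧ FS C.eps ∧
  C.eps ∘L C.Dh = - (C.Dh ∘L C.eps) ∧ C.eps ∘L C.Ds = - (C.Ds ∘L C.eps)

end

end Pool.Agent.Q169.ZD
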