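import Pool.Agent.Q169.ZD.Defs
import Pool.Agent.Q169.ZD.Stm
import Pool.Agent.TH38.CX.Syz
import Pool.Agent.Q27.Cox.BP

/-!
# Project ZD, part 2: the reflection construction and `ℓ²`-cochains

Jobs: EXT, CELL, RES, LTWO.
-/

set_option autoImplicit false

namespace Pool.Agent.Q169.ZD

open Pool.Agent.H919R4.ZS (FinRes toRed)
open Pool.Agent.TH38.ZT (ExAt)
open Pool.Agent.TH38.CX (AcyclicGComplex)

noncomputable section

/-- **JOB EXT.** The semidirect product `W ⋊ H` of a Coxeter group with a group `H` which permutes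
the simple reflections is an extended Coxeter group, `len (w, h) = ℓ(w)`.

PROOF. All facts on Coxeter groups are in `Q27.Cox` (file Pool/Agent/Q27/Cox/Par.lean: `P cs T` is
`par cs T`, `L`, `R`, `exists_decomp_L`, `length_mul_L`, `deodhar_up`, `descent_mem`).
`ℓ(φ h w) = ℓ(w)`: `φ h` maps words in the simple reflections to words of the same length, so
`ℓ(φ h w) ≤ ℓ(w)`, and `φ h⁻¹` gives the other inequality.
`len_inv`: `(w, h)⁻¹ = (φ h⁻¹ w⁻¹, h⁻¹)`. `len_mul`: `(w, h) (w', h') = (w φ_h w', h h')`.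
`len_smul`: `(s, 1) (w, h) = (s w, h)`, `cs.length_simple_mul`. `len_muls`:
`(w, h) (s_b, 1) = (w s_(h b), h)`. `conj`: `len (w, h) = 0` means `w = 1` and
`(1, h) (s_b, 1) (1, h)⁻¹ = (s_(h b), 1)`. `desc`: a right descent `b'` of `w ≠ 1`, take
`b = h⁻¹ b'`. `lift`: with `g = (w, h)`, `t = (s_c, 1)`, `s = (s_b, 1)`, `b' = h b` the hypotheses
say `ℓ(w) < ℓ(s_c w)`, `ℓ(w) < ℓ(w s_b')`, `ℓ(s_c w s_b') < ℓ(s_c w)`; `deodhar_up` with
`J = {b'}`, `x = w`, `i = c` gives `s_c w ∈ R {b'}` (impossible) or `s_c w = w s_b'`.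
`par_*`: for `T ⊆ S` let `T' = {b | (s_b, 1) ∈ T}`; then `closure T` is the image of `P cs T'`
under `w ↦ (w, 1)` (`MonoidHom.map_closure`), `(u, 1) (w, h) = (u w, h)`, and the three
properties are `exists_decomp_L`, `length_mul_L`, and `exists_leftDescent_of_ne_one` with
`descent_mem`. -/
def S_EXT : Prop :=
  ∀ (B : Type) (M : CoxeterMatrix B) (W : Type) [Group W] (cs : CoxeterSystem M W)
    (H : Type) [Group H] [MulAction H B] (φ : H →* MulAut W),
    (∀ h b, φ h (cs.simple b) = cs.simple (h • b)) →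
    ∃ E : Ext (W ⋊[φ] H), E.S = {s | ∃ b : B, s = ⟨cs.simple b, 1⟩} ∧
      ∀ g, E.len g = cs.length g.left

/-- **JOB CELL.** `𝒰(W, Y)` as an acyclic `W ⋊ H`-complex. The cells are written `κ i e w = w e`.

PROOF. Take `E i = Cell cs Y i`, `κ = cell cs Y`, action
`g • x = cell (g.right • x.1) (g.left * φ g.right x.2.out)`. Well defined: `φ h` maps
`par cs (mir e)` onto `par cs (mir (h e))` (`mir_smul`, `hφ`, `MonoidHom.map_closure`), hence
`g • cell e w = cell (g.right • e) (g.left * φ g.right w)`: for `v = (mk w).out`, `v⁻¹ w` is in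
`par (mir e)` and so `φ_h(v)⁻¹ φ_h(w) ∈ par (mir (h e))`. `cell e w = cell e' w'` iff `e = e'` and
`w⁻¹ w' ∈ par (mir e)` (`QuotientGroup.eq`). The boundary: if `bd e f ≠ 0` then
`mir e ⊆ mir f`, `par (mir e) ≤ par (mir f)`, so `cell f v = cell f w` for `v⁻¹ w ∈ par (mir e)`,
hence `bdCell (cell e w) = (bd e).mapDomain (cell · w)` (`Finsupp.mapDomain_congr`). Equivariance:
`bd_smul` and `Finsupp.mapDomain_comp`. `bdU` is additive, `bdU (single x 1) = bdCell x`. The
remaining fields are `IsAcyclic`. -/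
def S_CELL : Prop :=
  ∀ (B : Type) (M : CoxeterMatrix B) (W : Type) [Group W] (cs : CoxeterSystem M W)
    (H : Type) [Group H] [MulAction H B] (φ : H →* MulAut W),
    (∀ h b, φ h (cs.simple b) = cs.simple (h • b)) →
    ∀ Y : Mirrored H B, IsAcyclic cs Y →
    ∃ (U : AcyclicGComplex (W ⋊[φ] H)) (κ : ∀ i, Y.E i → W → U.E i),
      (∀ i (x : U.E i), ∃ e w, x = κ i e w) ∧
      (∀ i e e' w w', κ i e w = κ i e' w' ↔ e = e' ∧ w⁻¹ * w' ∈ par cs (Y.mir i e)) ∧
      (∀ i (g : W ⋊[φ] H) e w, g • κ i e w = κ i (g.right • e) (g.left * φ g.right w)) ∧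
      (∀ i e w, U.bd i (Finsupp.single (κ (i + 1) e w) 1) =
        (Y.bd i e).mapDomain (fun f => κ i f w))

/-- **JOB RES.** The cellular chain complex of a free acyclic complex with finitely many orbits as
a finite free resolution.

PROOF. `X.n = c`, `X.len = U.len` (`c i = 0` for `i > len` since `E i` is empty), `ψ i e = (n, a)`
if `e = n • rep i a` (`a` is unique by `hrep`, `n` because the action is free). `X.d i j k` is the
element of `ℤ[N]` with coefficient `bd i (single (rep j) 1) (g • rep k)` at `g` (finite support,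
since `g ↦ g • rep k` is injective). By equivariance
`bd i (single (n • rep j) 1) (g • rep k) = bd i (single (rep j) 1) (n⁻¹ g • rep k)`, which is the
formula. `X.aug = 1`. Exactness: the map `(E i →₀ ℤ) → (Fin (c i) → ℤ[N])`,
`x ↦ (k ↦ ∑_g x (g • rep k) g)`, is bijective, and it maps `bd i x` to (image of `x`) ᵥ* `d i`:
the coefficient of `(∑_j x_j d_jk)` at `g` is `∑_j ∑_n x (n rep j) d_jk (n⁻¹ g) =
∑_j ∑_n x (n rep j) bd (n rep j) (g rep k) = (bd x) (g rep k)`. The augmentation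
`∑_j augm (x_j) * 1` is the sum of all coefficients of `x`. `surj`: `U.nonempty`. -/
def S_RES : Prop :=
  ∀ (N : Type) [Group N] (U : AcyclicGComplex N),
    (∀ i (n : N) (e : U.E i), n • e = e → n = 1) →
    ∀ (c : ℕ → ℕ) (rep : ∀ i, Fin (c i) → U.E i),
    (∀ i (e : U.E i), ∃! a, e ∈ MulAction.orbit N (rep i a)) →
    ∃ (X : FinRes N) (ψ : ∀ i, U.E i ≃ N × Fin (X.n i)),
      (∀ i (n : N) (e : U.E i), ψ i (n • e) = (n * (ψ i e).1, (ψ i e).2)) ∧
      ∀ i (e : U.E (i + 1)) (f : U.E i), (U.bd i (Finsupp.single e 1)) f =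
        (X.d i (ψ (i + 1) e).2 (ψ i f).2).coeff ((ψ (i + 1) e).1⁻¹ * (ψ i f).1)

/-- exactness of the complex of square summable cochains -/
def L2Ex (E : ℕ → Type) (bd : ∀ i, (E (i + 1) →₀ ℤ) → (E i →₀ ℤ)) : Prop :=
  (∀ c : E 0 → ℂ, Memℓp c 2 →
    (∀ e : E 1, ((bd 0 (Finsupp.single e 1)).sum fun f n => ((n : ℤ) : ℂ) * c f) = 0) → c = 0) ∧
  ∀ (i : ℕ) (c : E (i + 1) → ℂ), Memℓp c 2 →
    (∀ e : E (i + 2), ((bd (i + 1) (Finsupp.single e 1)).sum fun f n => ((n : ℤ) : ℂ) * c f) = 0) →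
    ∃ c' : E i → ℂ, Memℓp c' 2 ∧
      ∀ e : E (i + 1), c e = (bd i (Finsupp.single e 1)).sum fun f n => ((n : ℤ) : ℂ) * c' f

/-- **JOB LTWO** (hypothesis: RES). If all `H_i(X; C*_r(N))` vanish, then the complex of square
summable cochains of the free cocompact acyclic `N`-complex `U` is exact.

PROOF. Let `X'` be the resolution of RES. `Pool.Agent.TH38.ZT.ex_indep` gives
`ExAt X' (toRed N) i` for all `i`, and `contraction'` (for `p` large) matrices `s i` over `RedC N`.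
Apply `valR` as in the proof of `Pool.Agent.H919R4.ZS.van_of_homology` (file
Pool/Agent/H919R4/ZS/Act.lean): with `D i = (X'.d i).map L` and bounded operators on
`ℓ²(N) = L2 N`: `s 0 * D 0 = 1`, `D i * s i + s (i + 1) * D (i + 1) = 1`, so for
`v : Fin (X'.n i) → L2 N`: `act (D 0) v = 0 → v = 0`, and
`act (D (i + 1)) v = 0 → v = act (D i) (act (s i) v)`.
For a square summable `c : U.E i → ℂ` let `v j n = c ((ψ i).symm (n⁻¹, j))`; this is a bijection
between square summable `c` and `Fin (X'.n i) → L2 N` (`Memℓp` on `N × Fin m`; a finite disjoint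
union). It transforms the coboundary into `act (D i)`: `(L a v)(h) = ∑_g a_g v (g⁻¹ h)`, so
`(act (D i) v) k h = ∑_j ∑_g d_kj(g) c (ψ.symm (h⁻¹ g, j))`, and with `e = ψ.symm (h⁻¹, k)`,
`f = ψ.symm (m, j)`, `m = h⁻¹ g`, the coefficient `bd e f = d_kj ((h⁻¹)⁻¹ m) = d_kj (g)`. -/
def S_LTWO : Prop :=
  ∀ (N : Type) [Group N] (U : AcyclicGComplex N),
    (∀ i (n : N) (e : U.E i), n • e = e → n = 1) →
    ∀ (c : ℕ → ℕ) (rep : ∀ i, Fin (c i) → U.E i),
    (∀ i (e : U.E i), ∃! a, e ∈ MulAction.orbit N (rep i a)) →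
    ∀ X : FinRes N, (∀ i, ExAt X (toRed N) i) → L2Ex U.E (fun i => U.bd i)

end

end Pool.Agent.Q169.ZD
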