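import Pool.Agent.Q169.ZD.Stm2

/-!
# Project ZD, part 3: lattices in locally finite regular buildings

Jobs: EXTW, BLD, CNT, KDEG, KSQ, KH, LIM, GR, MATCH, BU, RADA, RADB.

`(W, S)` is a Coxeter system with finite `S = {cs.simple b | b ∈ B}`; `B` is linearly ordered
(an auxiliary choice). The Davis chamber `K` is a cube complex, its cells are the intervals
`lo ⊆ hi` of spherical subsets of `B`, of dimension `|hi ∖ lo|`; the mirrors which contain the cell
are those with index in `lo`. The `δ`-residues of type `T` are the sets `{d | δ c d ∈ W_T}`. The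
cells of `𝒰(Φ, K)` are the pairs (cell `p` of `K`, residue of type `p.lo`), written `κ p c`.

Facts on Coxeter groups are in `Q27.Cox` (file Pool/Agent/Q27/Cox/Par.lean: `P cs T` is `par cs T`
by `rfl`, `L`, `R`, `exists_decomp_L`, `length_mul_L`, `deodhar_up`, `descent_mem`, `descents_R`,
`exists_reduced_word`).
-/

set_option autoImplicit false

namespace Pool.Agent.Q169.ZD

open Pool.Agent.H919R4.ZS (FinRes toRed)
open Pool.Agent.TH38.ZT (ExAt)
open Pool.Agent.TH38.CX (AcyclicGComplex)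

noncomputable section

open scoped Classical

/-- A building of type `(W, S)`: a set `Φ` of chambers with a Weyl distance `δ : Φ × Φ → W` which
satisfies the axioms (WD1), (WD2), (WD3) of Abramenko and Brown. -/
structure IsBuilding {B : Type} {M : CoxeterMatrix B} {W : Type} [Group W]
    (cs : CoxeterSystem M W) {Φ : Type} (δ : Φ → Φ → W) : Prop where
  /-- (WD1) -/
  eq_one_iff : ∀ c d, δ c d = 1 ↔ c = d
  /-- (WD2), first part: if `δ c' c = s` then `δ c' d` is `s * δ c d` or `δ c d` -/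
  adj : ∀ (c c' d : Φ) (b : B), δ c' c = cs.simple b →
    δ c' d = cs.simple b * δ c d ∨ δ c' d = δ c d
  /-- (WD2), second part: if moreover `ℓ(s * δ c d) > ℓ(δ c d)` then `δ c' d = s * δ c d` -/
  adj_of_lt : ∀ (c c' d : Φ) (b : B), δ c' c = cs.simple b →
    cs.length (δ c d) < cs.length (cs.simple b * δ c d) → δ c' d = cs.simple b * δ c d
  /-- (WD3) -/
  exists_adj : ∀ (c d : Φ) (b : B), ∃ c', δ c' c = cs.simple b ∧ δ c' d = cs.simple b * δ c d

section cells

variable {B : Type} {M : CoxeterMatrix B} {W : Type} [Group W] (cs : CoxeterSystem M W)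

/-- the cells of the Davis chamber: intervals `lo ⊆ hi` of spherical subsets -/
@[ext] structure Itv where
  lo : Finset B
  hi : Finset B
  le : lo ⊆ hi
  sph : Finite (par cs (hi : Set B))

instance [Finite B] : Finite (Itv cs) := by
  refine Finite.of_injective (fun p : Itv cs => (p.lo, p.hi)) fun p p' h => ?_
  rw [Prod.mk.injEq] at h
  exact Itv.ext h.1 h.2

instance [Finite B] : Fintype (Itv cs) := Fintype.ofFinite _

variable {cs} [LinearOrder B]

/-- the dimension of a cell -/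
def Itv.deg (p : Itv cs) : ℕ := (p.hi \ p.lo).card

/-- the sign of `s` in the subset `A` -/
def sgn (A : Finset B) (s : B) : ℤ := (-1) ^ (A.filter (· < s)).card

/-- the incidence numbers of the cube complex `K`: with `A = hi ∖ lo`,
`∂ (lo, hi) = ∑ s ∈ A, sgn A s • ((lo ∪ {s}, hi) - (lo, hi ∖ {s}))` -/
def kinc (p p' : Itv cs) : ℤ :=
  ∑ s ∈ p.hi \ p.lo, sgn (p.hi \ p.lo) s *
    ((if p'.lo = insert s p.lo ∧ p'.hi = p.hi then 1 else 0) -
      (if p'.lo = p.lo ∧ p'.hi = p.hi.erase s then 1 else 0))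

/-- the rank of `p` used in KH: `0` if `hi ⊆ I`, and `|hi|` otherwise -/
def krank (I : Finset B) (p : Itv cs) : ℕ := if p.hi ⊆ I then 0 else p.hi.card

end cells

/-! ### The jobs -/

/-- **JOB EXTW.** A Coxeter group is an extended Coxeter group (`H = 1`).

PROOF. As in Pool/Agent/Q31/ZD/Ext.lean (`Pool.Agent.Q31.ZD.ext : S_EXT`), with `W` instead of
`W ⋊ H`, `len = cs.length`, `S = Set.range cs.simple`; every field is the corresponding fact of
Pool/Agent/Q27/Cox/Par.lean. (Or apply `ext` to the trivial group `H` and transport along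
`W ≃* W ⋊ H`.) `conj`: `len h = 0` means `h = 1`. -/
def S_EXTW : Prop :=
  ∀ (B : Type) (M : CoxeterMatrix B) (W : Type) [Group W] (cs : CoxeterSystem M W),
    ∃ E : Ext W, E.S = Set.range cs.simple ∧ ∀ g, E.len g = cs.length g

/-- **JOB BLD.** Elementary facts on buildings: symmetry of the Weyl distance, residues, gates.

PROOF. (a) Auxiliary statement `A(ω)` for reduced words `ω` (of `w = π(ω)`): for all `c, d, e` with
`δ c d = w` and `ℓ(w⁻¹ v) = ℓ(w) + ℓ(v)`, where `v = δ c e`, one has `δ d e = w⁻¹ v`. Induction on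
`ω`: `ω = []`: `c = d`. `ω = b :: ω'`, `s = s_b`, `w' = π(ω')`, `w = s w'`: by (WD3) there is `c'`
with `δ c' c = s`, `δ c' d = s w = w'`. Since `ℓ(w'⁻¹ s v) = ℓ(w⁻¹ v) = ℓ(w') + 1 + ℓ(v)`, one has
`ℓ(s v) = ℓ(v) + 1` and `ℓ(w'⁻¹ (s v)) = ℓ(w') + ℓ(s v)`. By (WD2) `δ c' e = s v`, and by
induction `δ d e = w'⁻¹ s v = w⁻¹ v`.
(1) `A` with `e = c`, `v = 1`. (2) Induction on `ℓ(δ c d)` (for fixed `d, e`): if `δ c d = w ≠ 1` is
in `par cs T` choose `b ∈ T` with `ℓ(s_b w) < ℓ(w)` (`exists_leftDescent_of_ne_one`, `descent_mem`)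
and `c'` with `δ c' c = s_b`, `δ c' d = s_b w ∈ par cs T`; by induction `δ c' e ∈ par cs T`, and
`δ c' e` is `s_b * δ c e` or `δ c e` by (WD2). (3) Induction on `ℓ(δ c c₀)`: if `δ c c₀ ∉ L cs T`
there is `b ∈ T` with `ℓ(s_b * δ c c₀) < ℓ(δ c c₀)`; take `c'` from (WD3) with `δ c' c = s_b`,
`δ c' c₀ = s_b * δ c c₀`, apply the induction hypothesis to `c'` and (1), (2) (`δ c c' = s_b`).
(4) By (1) and `length_mul_L`: `ℓ(w⁻¹ v) = ℓ(w) + ℓ(v)` for `w = δ d e ∈ par cs T` and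
`v = δ d c₀ ∈ L cs T`, so `A` gives `δ e c₀ = w⁻¹ v`. (5) From (4) in both directions the lengths of
`δ d c₀`, `δ e c₀` are equal, so `ℓ(δ d e) = 0`. -/
def S_BLD : Prop :=
  ∀ (B : Type) (M : CoxeterMatrix B) (W : Type) [Group W] (cs : CoxeterSystem M W)
    (Φ : Type) (δ : Φ → Φ → W), IsBuilding cs δ →
    (∀ c d, δ d c = (δ c d)⁻¹) ∧
    (∀ (T : Set B) c d e, δ c d ∈ par cs T → δ d e ∈ par cs T → δ c e ∈ par cs T) ∧
    (∀ (T : Set B) c c₀, ∃ d, δ c d ∈ par cs T ∧ δ d c₀ ∈ Q27.Cox.L cs T) ∧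
    (∀ (T : Set B) d e c₀, δ d e ∈ par cs T → δ d c₀ ∈ Q27.Cox.L cs T →
      δ e c₀ = (δ d e)⁻¹ * δ d c₀ ∧
      cs.length (δ e c₀) = cs.length (δ d e) + cs.length (δ d c₀)) ∧
    (∀ (T : Set B) d e c₀, δ d e ∈ par cs T → δ d c₀ ∈ Q27.Cox.L cs T →
      δ e c₀ ∈ Q27.Cox.L cs T → d = e)

/-- **JOB CNT** (hypothesis: BLD). The weight function of a regular building: `q g` is the number of
chambers `c` with `δ c c₀ = g`.

PROOF. Let `A g = {c | δ c c₀ = g}`, `s = s_b`, `ℓ(g) < ℓ(s g)`. For `c' ∈ A (s g)` there is by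
(WD3) a `c` with `δ c c' = s`, `δ c c₀ = g` (`s s g = g`), and it is unique by BLD (5) for
`T = {b}` (`g ∈ L cs {b}`; two such `c` are in the same residue by BLD (1), (2)). Conversely, if
`c ∈ A g` and `δ c' c = s` then `c' ∈ A (s g)` by (WD2), and `δ c c' = s⁻¹ = s` by BLD (1). So
`A (s g)` is the disjoint union over `c ∈ A g` of the sets `{c' | δ c' c = s}`, each of which is
finite with `k b` elements. Hence by induction on the length all `A g` are finite (`A 1 = {c₀}`),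
`|A (s g)| = k b * |A g|`, and for `f` as in the statement
`∑_(A (s g)) f = k b * ∑_(A g) f`. In particular `|A (π ω)| = ∏_(b ∈ ω) k b` for reduced words `ω`,
which is independent of `c₀`; let `q g` be this number (`k b > 0` because the set
`{c' | δ c' c = s}` is not empty by (WD3)), `q s_b = k b`. If `ω` is reduced for `g` and
`ℓ(g s) > ℓ(g)` then `ω ++ [b]` is reduced for `g s`, so `q (g s) = q g * q s`. Last part:
`{d | δ c d ∈ par cs T}` is (BLD (1)) the union over `u ∈ par cs T` (a finite group) of the sets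
`{d | δ d c = u⁻¹}`, with `q u⁻¹` elements. -/
def S_CNT : Prop :=
  ∀ (B : Type) (M : CoxeterMatrix B) (W : Type) [Group W] (cs : CoxeterSystem M W)
    (Φ : Type) [Nonempty Φ] (δ : Φ → Φ → W), IsBuilding cs δ → ∀ k : B → ℕ,
    (∀ b c, {c' | δ c' c = cs.simple b}.encard = k b) →
    ∃ q : W → ℝ, IsWeight cs q ∧
      (∀ g c₀, {c | δ c c₀ = g}.Finite ∧ (({c | δ c c₀ = g}.ncard : ℕ) : ℝ) = q g) ∧
      (∀ b g c₀, cs.length g < cs.length (cs.simple b * g) → ∀ f : Φ → ℂ,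
        (∀ c c', δ c' c = cs.simple b → f c' = f c) →
        ∑ᶠ c ∈ {c | δ c c₀ = cs.simple b * g}, f c =
          ((q (cs.simple b) : ℝ) : ℂ) * ∑ᶠ c ∈ {c | δ c c₀ = g}, f c) ∧
      ∀ T : Set B, Finite (par cs T) → ∃ m : ℕ, ∀ c, {d | δ c d ∈ par cs T}.Finite ∧
        {d | δ c d ∈ par cs T}.ncard ≤ m

/-- **JOB KDEG.** Simple properties of the incidence numbers of `K`.

PROOF. If `kinc p p' ≠ 0` there is `s ∈ hi ∖ lo` with `p' = (lo ∪ {s}, hi)` or
`p' = (lo, hi ∖ {s})`. Second part: if `deg p = 1` then `hi ∖ lo = {s}` and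
`∑_(p') kinc p p' = sgn * (1 - 1) = 0`, since both `(lo ∪ {s}, hi)` and `(lo, hi ∖ {s})` are
cells (`par cs` of a smaller set is smaller, hence finite). -/
def S_KDEG : Prop :=
  ∀ (B : Type) [Finite B] [LinearOrder B] (M : CoxeterMatrix B) (W : Type) [Group W]
    (cs : CoxeterSystem M W),
    (∀ p p' : Itv cs, kinc p p' ≠ 0 → p.deg = p'.deg + 1 ∧ p.lo ⊆ p'.lo ∧ p'.hi ⊆ p.hi) ∧
    ∀ p : Itv cs, p.deg = 1 → ∑ p', kinc p p' = 0

/-- **JOB KSQ.** `∂ ∂ = 0` in the cube complex `K`.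

PROOF. `∑_(p') kinc p p' * kinc p' p''`: the paths are `p → p'` by adding `s` to `lo` (sign
`sgn A s`, `A = hi ∖ lo`) or removing `s` from `hi` (sign `- sgn A s`), `s ∈ A`, then the same for
`t ∈ A ∖ {s}` with signs `± sgn (A ∖ {s}) t`. So the sum is
`∑_(s ≠ t in A) sgn A s * sgn (A ∖ {s}) t * (f s t)`, with
`f s t = [p'' = (lo ∪ {s, t}, hi)] - [p'' = (lo ∪ {s}, hi ∖ {t})] - [p'' = (lo ∪ {t}, hi ∖ {s})] +
[p'' = (lo, hi ∖ {s, t})]`, which is symmetric in `s`, `t`, while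
`sgn A s * sgn (A ∖ {s}) t = - sgn A t * sgn (A ∖ {t}) s` for `s ≠ t`: if `s < t` then
`sgn (A ∖ {s}) t = - sgn A t` and `sgn (A ∖ {t}) s = sgn A s`. (`Finset.sum_involution` or
`Finset.sum_comm` and `x = -x`.) -/
def S_KSQ : Prop :=
  ∀ (B : Type) [Finite B] [LinearOrder B] (M : CoxeterMatrix B) (W : Type) [Group W]
    (cs : CoxeterSystem M W) (p p'' : Itv cs), ∑ p', kinc p p' * kinc p' p'' = 0

/-- **JOB KH.** A homotopy for the relative complex of `K` modulo the mirrors with index in `I`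
(`I` spherical).

PROOF. For `p = (lo, hi)` with `lo ∩ I = ∅` and `A = hi ∖ lo` define `H p` (a multiple of one cell):
(i) `hi ⊄ I`, `m = min (hi ∖ I)`: if `m ∈ lo` then `H p = sgn A m • (lo ∖ {m}, hi)`, if `m ∉ lo`
then `H p = 0`. (ii) `hi ⊆ I`, `I ≠ ∅` (then `lo = ∅`, `A = hi`), `i = min I`: if `i ∉ hi` then
`H p = - sgn A i • (lo, hi ∪ {i})` (`hi ∪ {i} ⊆ I` is spherical), if `i ∈ hi` then `H p = 0`.
(iii) `I = ∅`, `hi = ∅`: `H p = 0`. (For `lo ∩ I ≠ ∅` put `H p = 0`.) Let `h p p'` be the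
coefficient of `p'` in `H p`. (1), (2) are clear: in (i) `hi` is not changed; in (ii) `hi ⊆ I` before
and after.
(3) Case (i), `m ∈ lo`: `∂ H p = sgn A m ∑_(s ∈ A ∪ {m}) sgn (A ∪ {m}) s • ((lo ∖ {m} ∪ {s}, hi) -
(lo ∖ {m}, hi ∖ {s}))`. The term `s = m` is `p - (lo ∖ {m}, hi ∖ {m})` because
`sgn (A ∪ {m}) m = sgn A m`, `sgn * sgn = 1`. All cells `(_, hi ∖ {s})` have smaller rank (rank
`|hi| - 1` or `0`; note `|hi| ≥ 1`). For `s ∈ A`: if `s ∈ I` the cell `(lo ∖ {m} ∪ {s}, hi)` has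
`lo ∩ I ≠ ∅` and is not counted; if `s ∉ I`, `∂ p` contains `sgn A s • (lo ∪ {s}, hi)` with
`H (lo ∪ {s}, hi) = sgn (A ∖ {s}) m • (lo ∪ {s} ∖ {m}, hi)`, and
`sgn A m * sgn (A ∪ {m}) s = - sgn A s * sgn (A ∖ {s}) m` (if `s < m`: `sgn (A ∪ {m}) s = sgn A s`
and `sgn (A ∖ {s}) m = - sgn A m`; if `m < s`: `sgn (A ∪ {m}) s = - sgn A s` and
`sgn (A ∖ {s}) m = sgn A m`), so the two contributions cancel. `H` of the cells
`(lo, hi ∖ {s})` of `∂ p` has the same rank as these, smaller than that of `p`.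
Case (i), `m ∉ lo`: `H p = 0`, and in `H ∂ p` the term `s = m` is
`sgn A m * sgn (A ∖ {m}) m • (lo, hi) = p`; for `s ≠ m`, `s ∉ I`, `m ∉ lo ∪ {s}`, so
`H (lo ∪ {s}, hi) = 0`; the cells `(lo, hi ∖ {s})` have smaller rank.
Case (ii): all `s ∈ A = hi ⊆ I`, so the cells `(lo ∪ {s}, _)` are not counted. `i ∉ hi`:
`∂ H p = - sgn A i ∑_(s ∈ hi ∪ {i}) sgn (hi ∪ {i}) s • (- (∅, hi ∪ {i} ∖ {s})) + (not counted)`,
the term `s = i` is `p`; for `s ≠ i`: `H` of `- sgn A s • (∅, hi ∖ {s})` is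
`sgn A s * sgn (A ∖ {s}) i • (∅, hi ∖ {s} ∪ {i})` and
`sgn A i * sgn (A ∪ {i}) s = - sgn A s * sgn (A ∖ {s}) i`, so they cancel. `i ∈ hi`: `H p = 0`, in
`H ∂ p` the term `s = i`: `H (- sgn A i • (∅, hi ∖ {i})) = sgn A i * sgn (A ∖ {i}) i • p = p`; for
`s ≠ i`: `i ∈ hi ∖ {s}`, `H = 0`. So here the difference in (3) vanishes for all `p''`. -/
def S_KH : Prop :=
  ∀ (B : Type) [Finite B] [LinearOrder B] (M : CoxeterMatrix B) (W : Type) [Group W]
    (cs : CoxeterSystem M W) (I : Finset B), Finite (par cs (I : Set B)) →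
    ∃ h : Itv cs → Itv cs → ℤ,
      (∀ p p', h p p' ≠ 0 → Disjoint p.lo I ∧ Disjoint p'.lo I ∧ p'.deg = p.deg + 1 ∧
        krank I p' = krank I p) ∧
      (∀ p : Itv cs, I = ∅ → p.hi = ∅ → ∀ p', h p p' = 0) ∧
      ∀ p : Itv cs, Disjoint p.lo I → ¬ (I = ∅ ∧ p.hi = ∅) →
        ∀ p'' : Itv cs, Disjoint p''.lo I →
        (if p = p'' then (1 : ℤ) else 0) - ∑ p', h p p' * kinc p' p'' -
          ∑ p' ∈ Finset.univ.filter (fun p' : Itv cs => Disjoint p'.lo I), kinc p p' * h p' p'' ≠ 0 →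
        krank I p'' < krank I p

/-- **JOB LIM.** The deformed Euler characteristic of the Davis chamber does not vanish for all
weights `r ^ ℓ`.

PROOF. For `r → 0` (`0 < r`), `∑_(u ∈ W_T) r ^ ℓ(u) → 1` for finite `W_T` (only `u = 1` has length
`0`), so the sum tends to `∑_p (-1) ^ deg p = ∑_(hi spherical) ∑_(lo ⊆ hi) (-1) ^ |hi ∖ lo| =
∑_(hi spherical) [hi = ∅] = 1` (`Finset.sum_powerset_neg_one_pow_card`; subsets of spherical sets
are spherical; the empty set is spherical). So it is not `0` for small `r`. The sum over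
`par cs (p.lo)` is a finite sum since `par cs p.lo ≤ par cs p.hi` is finite. -/
def S_LIM : Prop :=
  ∀ (B : Type) [Finite B] [LinearOrder B] (M : CoxeterMatrix B) (W : Type) [Group W] (cs : CoxeterSystem M W),
    ∃ r : ℝ, 0 < r ∧ ∑ p : Itv cs, (-1 : ℝ) ^ p.deg /
      ∑ᶠ u : par cs (p.lo : Set B), r ^ cs.length (u : W) ≠ 0

/-- the linear extension of a map on the basis -/
def lext {X Y : Type} (f : X → (Y →₀ ℤ)) (z : X →₀ ℤ) : Y →₀ ℤ := z.sum fun x n => n • f x

/-- **JOB GR.** A criterion for acyclicity, and the graded form.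

PROOF. Write `D = lext bd`, `Hh = lext h` (additive maps). `N z = z - D (Hh z) - Hh (D z)`. Let `z`
be supported in degree `n + 1` with `D z = 0`. Claim: `z = D y` with `y` supported in degree
`n + 2`. Induction on `r` with `ρ x < r` for all `x` in the support of `z`: `z = D (Hh z) + N z`,
`N z = ∑ z_x N x` is supported on elements `y` with `ρ y < ρ x` for some `x ∈ supp z` (hypothesis
(e); `x ≠ x₀` as `deg x₀ = 0`), it is supported in degree `n + 1` by (b), (d), and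
`D (N z) = D z - D D Hh z - D Hh D z = 0`. `r = 0`: `z = 0`. For degree `0` and
`∑ z_x = 0`: write `z = z_(x₀) x₀ + z'`. `z = D (Hh z) + N z` with `N x₀ = x₀` (`h x₀ = 0`,
`bd x₀ = 0` by degrees), the sum of the coefficients of `N z` is that of `z` (by (c), `D (Hh z)` is
a combination of `bd x`, `deg x = 1`; and `D z = 0` in degree 0 by (b)). The elements `x ≠ x₀` in
the support of `N z` have `ρ x <` the maximum of `ρ` on `supp z ∖ {x₀}`, or are equal to ... (an
element of the support of `N z'` is `x₀` or has smaller rank). Induction on `r` with `ρ x < r` for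
all `x ∈ supp z ∖ {x₀}`; for `r = 0`: `z = a x₀` and `a = ∑ z_x = 0`. Conversely, `D D = 0` by (a)
and the sum of the coefficients of `D y` vanishes for `y` in degree 1 by (c).
The graded complex: `U.E n = {x // deg x = n}` with the restricted action,
`U.bd n z = (D (z.mapDomain Subtype.val)).comapDomain Subtype.val` (or
`Finsupp.subtypeDomain`); by (b) the support of `D z'` is in degree `n` if that of `z'` is in degree
`n + 1`, so no information is lost. -/
def S_GR : Prop :=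
  ∀ (N : Type) [Group N] (X : Type) [MulAction N X] (deg ρ : X → ℕ) (bd h : X → (X →₀ ℤ)) (x₀ : X)
    (L : ℕ), (∀ (n : N) x, deg (n • x) = deg x) → (∀ x, deg x ≤ L) →
    (∀ (n : N) x, bd (n • x) = (bd x).mapDomain (fun y => n • y)) →
    (∀ x, lext bd (bd x) = 0) →
    (∀ x y, bd x y ≠ 0 → deg x = deg y + 1) →
    (∀ x, deg x = 1 → (bd x).sum (fun _ n => n) = 0) →
    (∀ x y, h x y ≠ 0 → deg y = deg x + 1) →
    (∀ x, x ≠ x₀ → ∀ y, (Finsupp.single x 1 - lext bd (h x) - lext h (bd x) : X →₀ ℤ) y ≠ 0 → ρ y < ρ x) →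
    deg x₀ = 0 → h x₀ = 0 →
    ∃ (U : AcyclicGComplex N) (e : ∀ n, U.E n ≃ {x : X // deg x = n}),
      (∀ n (g : N) (x : U.E n), ((e n (g • x) : {x : X // deg x = n}) : X) = g • (e n x : X)) ∧
      ∀ n (x : U.E (n + 1)) (y : U.E n),
        (U.bd n (Finsupp.single x 1)) y = bd (e (n + 1) x : X) (e n y : X)

/-- **JOB MATCH** (hypotheses: BLD, KDEG, KH). The homotopy on `𝒰(Φ, K)`. The cells are given as a
set `X` with a surjective `κ : Itv × Φ → X`, as described in the header of this file.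

PROOF. Fix `c₀`. Gate: for a cell `x = κ p c` there is a unique chamber `g x` in the residue
`{d | δ c d ∈ par cs p.lo}` with `δ (g x) c₀ ∈ L cs p.lo` (BLD (3), (5)), and `x = κ p (g x)`; let
`pr x = p` (well defined by `hκ`). For a chamber `c` let
`In c = {b | ℓ(s_b * δ c c₀) < ℓ(δ c c₀)}` (a `Finset`); it is spherical: for `y ∈ par cs (In c)`,
`ℓ(y) ≤ ℓ(δ c c₀)` (`descents_R` for `b = (δ c c₀)⁻¹`), and there are finitely many elements of
bounded length because `B` is finite. `In c = ∅` iff `δ c c₀ = 1` iff `c = c₀`. The gate of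
`κ p c` is `c` iff `p.lo ∩ In c = ∅`; otherwise `ℓ(δ (g x) c₀) < ℓ(δ c c₀)` (BLD (4)).
Let `h_I` be the function of KH for `I`, and for `x` with `p = pr x`, `c = g x`, `I = In c` put
`h x = ∑_(p') h_I p p' • κ p' c` and `ρ x = ℓ(δ c c₀) * (|B| + 1) + krank I p`, where
`krank ≤ |B|`, so `ρ` is monotone in `ℓ(δ c c₀)` first. `x₀ = κ (∅, ∅) c₀`; `h x₀ = 0` by the second
property of KH. Degrees: KH (1).
The main estimate: `x ≠ x₀`, `x = κ p c`, `c = g x`, `I = In c`, so `p.lo ∩ I = ∅`, and not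
(`I = ∅` and `p.hi = ∅`) (otherwise `c = c₀`, `p = (∅, ∅)`). For a cell `y` say that `y` is
lower if `ℓ(δ (g y) c₀) < ℓ(δ c c₀)`; lower cells have `ρ y < ρ x`. `lext bd (h x) =
∑_(p') h_I p p' ∑_(p'') kinc p' p'' • κ p'' c`, where `κ p'' c` is lower if
`p''.lo ∩ I ≠ ∅`. `bd x = ∑_(p') kinc p p' • κ p' c`. If `p'.lo ∩ I = ∅` then the gate of `κ p' c`
is `c` and `h (κ p' c) = ∑_(p'') h_I p' p'' • κ p'' c`; if `p'.lo ∩ I ≠ ∅` then the gate `c'` of
`κ p' c` is lower and `h (κ p' c)` is a combination of cells `κ p'' c'` with gate `c'` (KH (1):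
`p''.lo ∩ In c' = ∅`), which are lower. So if `y` is not lower and is in the support of the
difference then `y = κ p'' c` with `p''.lo ∩ I = ∅` (if `x = y`, too), and its coefficient is the
expression of KH (3) for `p, p''` (the cells `κ p'' c` are different for different `p''`); so
`krank I p'' < krank I p` and `ρ y < ρ x`. -/
def S_MATCH : Prop :=
  ∀ (B : Type) [Finite B] [LinearOrder B] (M : CoxeterMatrix B) (W : Type) [Group W]
    (cs : CoxeterSystem M W) (Φ : Type) (δ : Φ → Φ → W), IsBuilding cs δ → Nonempty Φ →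
    ∀ (X : Type) (κ : Itv cs → Φ → X), (∀ x, ∃ p c, x = κ p c) →
    (∀ p p' c c', κ p c = κ p' c' ↔ p = p' ∧ δ c c' ∈ par cs (p.lo : Set B)) →
    ∀ (deg : X → ℕ), (∀ p c, deg (κ p c) = p.deg) →
    ∀ (bd : X → (X →₀ ℤ)),
    (∀ p c, bd (κ p c) = ∑ p', kinc p p' • Finsupp.single (κ p' c) 1) →
    ∃ (h : X → (X →₀ ℤ)) (ρ : X → ℕ) (x₀ : X), deg x₀ = 0 ∧ h x₀ = 0 ∧
      (∀ x y, h x y ≠ 0 → deg y = deg x + 1) ∧
      ∀ x, x ≠ x₀ → ∀ y, (Finsupp.single x 1 - lext bd (h x) - lext h (bd x) : X →₀ ℤ) y ≠ 0 → ρ y < ρ x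

/-- **JOB BU** (hypotheses: BLD, KDEG, KSQ, GR, MATCH). `𝒰(Φ, K)` as an acyclic `N`-complex.

PROOF. `X = {x : Itv cs × Set Φ // ∃ c, x.2 = {d | δ c d ∈ par cs x.1.lo}}`,
`κ p c = (p, {d | δ c d ∈ par cs p.lo})`. By BLD (1), (2) the residues are equivalence classes,
which gives `κ p c = κ p' c' ↔ ...`. The group acts by `n • (p, R) = (p, n • R)` (image), and
`n • κ p c = κ p (n • c)` by `δ (n c) (n d) = δ c d`. `bd x = ∑_(p') kinc x.1.1 p' • κ p' c` for
a chosen `c` with `x = κ p c`; if `kinc p p' ≠ 0` then `p.lo ⊆ p'.lo` (KDEG), `par cs p.lo ≤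
par cs p'.lo`, so `κ p' c` does not depend on the choice of `c`, and
`bd (κ p c) = ∑_(p') kinc p p' • single (κ p' c) 1` for all `c`; this gives the equivariance.
`lext bd (bd x) = 0`: KSQ. Degree and augmentation: KDEG. Apply MATCH (with any `c₀`; the set of
chambers is not empty) and GR with `L = |B|`. Finally `κ' n p c = (e n).symm ⟨κ p c, _⟩`; the
boundary formula: compare coefficients at `y` with `GR`. -/
def S_BU : Prop :=
  ∀ (B : Type) [Finite B] [LinearOrder B] (M : CoxeterMatrix B) (W : Type) [Group W]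
    (cs : CoxeterSystem M W) (Φ : Type) [Nonempty Φ] (δ : Φ → Φ → W), IsBuilding cs δ →
    ∀ (N : Type) [Group N] [MulAction N Φ], (∀ (n : N) c d, δ (n • c) (n • d) = δ c d) →
    ∃ (U : AcyclicGComplex N) (κ : ∀ n, {p : Itv cs // p.deg = n} → Φ → U.E n),
      (∀ n (x : U.E n), ∃ p c, x = κ n p c) ∧
      (∀ n p p' c c', κ n p c = κ n p' c' ↔ p = p' ∧ δ c c' ∈ par cs (p.1.lo : Set B)) ∧
      (∀ n (g : N) p c, g • κ n p c = κ n p (g • c)) ∧
      (∀ n p c, U.bd n (Finsupp.single (κ (n + 1) p c) 1) =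
        ∑ p' : {p : Itv cs // p.deg = n}, kinc p.1 p'.1 • Finsupp.single (κ n p' c) 1)

/-- functions on pairs (cell of `K`, chamber) which are constant on residues -/
def RInv {B : Type} {M : CoxeterMatrix B} {W : Type} [Group W] (cs : CoxeterSystem M W)
    {Φ : Type} (δ : Φ → Φ → W) (f : Itv cs × Φ → ℂ) : Prop :=
  ∀ p c c', δ c c' ∈ par cs (p.lo : Set B) → f (p, c) = f (p, c')

/-- exactness of the complex of square summable cochains, on the level of chambers -/
def PhiEx {B : Type} [Finite B] [LinearOrder B] {M : CoxeterMatrix B} {W : Type} [Group W]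
    (cs : CoxeterSystem M W) {Φ : Type} (δ : Φ → Φ → W) : Prop :=
  ∀ f : Itv cs × Φ → ℂ, Memℓp f 2 → RInv cs δ f →
    (∀ p c, ∑ p', ((kinc p p' : ℤ) : ℂ) * f (p', c) = 0) →
    ∃ f' : Itv cs × Φ → ℂ, Memℓp f' 2 ∧ RInv cs δ f' ∧
      ∀ p c, ∑ p', ((kinc p p' : ℤ) : ℂ) * f' (p', c) = f (p, c)

/-- **JOB RADA** (hypotheses: BLD, KDEG). From square summable cochains on `𝒰(Φ, K)` to functions of
chambers.

PROOF. Let `f` be given. For every `n` define `F n : U.E n → ℂ` by `F n (κ n p c) = f (p, c)` (well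
defined by `RInv` and the second property of `κ`; use the chosen representatives). It is square
summable: `U.E n → Itv × Φ` (chosen representatives) is injective (`memlp_inj` in
Pool/Agent/Q169/ZD/Trans3.lean, where also `memlp_prod`, `memlp2_iff` are). Its coboundary vanishes:
evaluate `(U.bd n (single (κ (n+1) p c) 1)).sum (fun y m => m * F n y) = ∑_(p' of degree n)
kinc p p' * f (p', c)`, which is the sum over all `p'` because `kinc p p' = 0` if
`p'.deg ≠ n = p.deg - 1` (KDEG). By `L2Ex`, `F 0 = 0`, and `F (n + 1)` is the coboundary of a square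
summable `G n : U.E n → ℂ`. Put `f' (p, c) = G p.deg (κ p.deg ⟨p, rfl⟩ c)`. `RInv`: clear. Square
summable: `Itv` is finite, and for fixed `p` the map `c ↦ κ _ p c` has fibres with at most `m`
elements (the residues of type `p.lo`, `par cs p.lo ≤ par cs p.hi` finite; hypothesis `hm`), so
`∑_c ‖G (κ p c)‖ ^ 2 ≤ m ∑_x ‖G x‖ ^ 2`. The coboundary of `f'` at `(p, c)`: if `p.deg = n + 1` it
is the coboundary of `G n` at `κ (n + 1) p c`, `= F (n + 1) (κ p c) = f (p, c)`; if `p.deg = 0` then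
all `kinc p p' = 0`, and `f (p, c) = F 0 (κ 0 p c) = 0`. -/
def S_RADA : Prop :=
  ∀ (B : Type) [Finite B] [LinearOrder B] (M : CoxeterMatrix B) (W : Type) [Group W]
    (cs : CoxeterSystem M W) (Φ : Type) (δ : Φ → Φ → W), IsBuilding cs δ →
    (∀ T : Set B, Finite (par cs T) → ∃ m : ℕ, ∀ c, {d | δ c d ∈ par cs T}.Finite ∧
        {d | δ c d ∈ par cs T}.ncard ≤ m) →
    ∀ (E : ℕ → Type) (bd : ∀ i, (E (i + 1) →₀ ℤ) →+ (E i →₀ ℤ))
      (κ : ∀ n, {p : Itv cs // p.deg = n} → Φ → E n),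
      (∀ n (x : E n), ∃ p c, x = κ n p c) →
      (∀ n p p' c c', κ n p c = κ n p' c' ↔ p = p' ∧ δ c c' ∈ par cs (p.1.lo : Set B)) →
      (∀ n p c, bd n (Finsupp.single (κ (n + 1) p c) 1) =
        ∑ p' : {p : Itv cs // p.deg = n}, kinc p.1 p'.1 • Finsupp.single (κ n p' c) 1) →
      L2Ex E (fun i => bd i) → PhiEx cs δ

/-- **JOB RADB** (hypothesis: BLD). From functions of chambers to functions on `W` (radial parts).
`hq` is the conclusion of CNT.

PROOF. Fix `c₀`. Given `F`, put `f (p, c) = F (p, g) / √(q g)` with `g = δ c c₀`. `f` is constant on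
residues: it suffices that `f (p, c') = f (p, c)` for `δ c' c = s_b`, `b ∈ p.lo` (for a general
element `u = δ c' c` of `par cs p.lo` induct on `ℓ(u)` with (WD3) and `descent_mem` as in BLD (2));
by (WD2) `δ c' c₀` is `s_b g` or `g`, and by symmetry (exchange `c`, `c'`) we may assume
`δ c' c₀ = s_b g`, `ℓ(s_b g) > ℓ(g)`: `F (p, s_b g) = √(q s_b) F (p, g)` and
`q (s_b g) = q s_b * q g`. Square summable: `∑_c |f (p, c)|² = ∑_g |A g| |F (p, g)|² / q g =
∑_g |F (p, g)|²` with `A g = {c | δ c c₀ = g}`, `|A g| = q g` (sum over the fibres of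
`c ↦ δ c c₀`; e.g. `summable_sigma_of_nonneg` and `Equiv.sigmaFiberEquiv`). Its coboundary is
`(∑_(p') kinc p p' F (p', g)) / √(q g) = 0`. Let `f'` be given by `PhiEx`, and
`F' (p, g) = (∑ᶠ_(c ∈ A g) f' (p, c)) / √(q g)`. Cauchy-Schwarz:
`|F' (p, g)|² ≤ ∑_(c ∈ A g) |f' (p, c)|²`, so `F'` is square summable. For `b ∈ p.lo` and
`ℓ(g) < ℓ(s_b g)` by the third property in `hq` (with `f' (p, ·)`, constant on `b`-panels):
`F' (p, s_b g) = q s_b * ∑ᶠ_(A g) f' / √(q s_b * q g) = √(q s_b) F' (p, g)`. Finally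
`∑_(p') kinc p p' F' (p', g) = (∑_(c ∈ A g) f (p, c)) / √(q g) = q g * F (p, g) / (√(q g))² =
F (p, g)`. -/
def S_RADB : Prop :=
  ∀ (B : Type) [Finite B] [LinearOrder B] (M : CoxeterMatrix B) (W : Type) [Group W]
    (cs : CoxeterSystem M W) (Φ : Type) [Nonempty Φ] (δ : Φ → Φ → W), IsBuilding cs δ →
    ∀ q : W → ℝ, IsWeight cs q →
    (∀ g c₀, {c | δ c c₀ = g}.Finite ∧ (({c | δ c c₀ = g}.ncard : ℕ) : ℝ) = q g) →
    (∀ b g c₀, cs.length g < cs.length (cs.simple b * g) → ∀ f : Φ → ℂ,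
        (∀ c c', δ c' c = cs.simple b → f c' = f c) →
        ∑ᶠ c ∈ {c | δ c c₀ = cs.simple b * g}, f c =
          ((q (cs.simple b) : ℝ) : ℂ) * ∑ᶠ c ∈ {c | δ c c₀ = g}, f c) →
    PhiEx cs δ →
    ∀ F : Itv cs × W → ℂ, Memℓp F 2 →
      (∀ p, ∀ b ∈ p.lo, ∀ g, cs.length g < cs.length (cs.simple b * g) →
        F (p, cs.simple b * g) = ((Real.sqrt (q (cs.simple b)) : ℝ) : ℂ) * F (p, g)) →
      (∀ p g, ∑ p', ((kinc p p' : ℤ) : ℂ) * F (p', g) = 0) →
      ∃ F' : Itv cs × W → ℂ, Memℓp F' 2 ∧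
        (∀ p, ∀ b ∈ p.lo, ∀ g, cs.length g < cs.length (cs.simple b * g) →
          F' (p, cs.simple b * g) = ((Real.sqrt (q (cs.simple b)) : ℝ) : ℂ) * F' (p, g)) ∧
        ∀ p g, ∑ p', ((kinc p p' : ℤ) : ℂ) * F' (p', g) = F (p, g)

end

end Pool.Agent.Q169.ZD
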