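import Pool.Agent.Q169.ZD.Stm2

/-!
# Project ZD: the cochain complex of the reflection construction as a complex `Cx`
-/

set_option autoImplicit false
set_option linter.unusedSectionVars false

namespace Pool.Agent.Q169.ZD

open Pool.Agent.H496R3.ZS (Ell)
open Pool.Agent.TH38.CX (AcyclicGComplex)

noncomputable section

open scoped Classical

variable {B : Type} {M : CoxeterMatrix B} {W : Type} [Group W] (cs : CoxeterSystem M W)
  {H : Type} [Group H] [MulAction H B] (φ : H →* MulAut W)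
  (Y : Mirrored H B)

/-- the cells modulo `H` -/
abbrev II : Type := Σ i : Fin (Y.len + 1), Fin (Y.c i)

/-- incidence numbers of cells of arbitrary dimensions -/
def inc : ∀ i, Y.E i → ∀ k, Y.E k → ℤ
  | 0, _, _, _ => 0
  | (i + 1), e, k, f => if h : k = i then Y.bd i e (h ▸ f) else 0

theorem inc_succ (i : ℕ) (e : Y.E (i + 1)) (f : Y.E i) : inc Y (i + 1) e i f = Y.bd i e f := by
  simp [inc]

theorem inc_deg {i : ℕ} {e : Y.E i} {k : ℕ} {f : Y.E k} (h : inc Y i e k f ≠ 0) : i = k + 1 := by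
  cases i with
  | zero => exact absurd rfl h
  | succ i =>
    by_contra hk
    apply h
    have : ¬ k = i := fun hki => hk (by rw [hki])
    simp [inc, this]

theorem free_inj {i : ℕ} (e : Y.E i) : Function.Injective (fun h : H => h • e) := by
  intro h h' hh
  change h • e = h' • e at hh
  have h1 : (h'⁻¹ * h) • e = e := by rw [mul_smul, hh, inv_smul_smul]
  have h2 := Y.free i _ _ h1
  rw [inv_mul_eq_one] at h2
  exact h2.symm

/-- the coefficient function of the coboundary -/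
def dfun (x y : II Y) (g : W ⋊[φ] H) : ℤ :=
  if g.left = 1 then inc Y x.1 (Y.rep x.1 x.2) y.1 (g.right • Y.rep y.1 y.2) else 0

theorem dfun_finite (x y : II Y) : (Function.support (dfun φ Y x y)).Finite := by
  obtain ⟨⟨i, hi⟩, a⟩ := x
  obtain ⟨⟨k, hk⟩, b⟩ := y
  by_cases hik : i = k + 1
  · subst hik
    have h1 : (((Y.bd k (Y.rep (k + 1) a)).support : Set (Y.E k))).Finite := Finset.finite_toSet _
    have hinj : Set.InjOn (fun g : W ⋊[φ] H => g.right • Y.rep k b)
        (Function.support (dfun φ Y ⟨⟨k + 1, hi⟩, a⟩ ⟨⟨k, hk⟩, b⟩)) := by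
      intro g hg g' hg' hgg
      have h2 : g.left = 1 := by
        by_contra h
        exact hg (if_neg h)
      have h3 : g'.left = 1 := by
        by_contra h
        exact hg' (if_neg h)
      refine SemidirectProduct.ext (h2.trans h3.symm) (free_inj Y _ hgg)
    refine Set.Finite.of_finite_image (h1.subset ?_) hinj
    rintro _ ⟨g, hg, rfl⟩
    rw [Function.mem_support, dfun] at hg
    by_cases h2 : g.left = 1
    · rw [if_pos h2] at hg
      rw [Finset.mem_coe, Finsupp.mem_support_iff, ← inc_succ]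
      exact hg
    · exact absurd (if_neg h2) hg
  · convert Set.finite_empty
    rw [Function.support_eq_empty_iff]
    funext g
    by_contra h
    apply hik
    rw [dfun] at h
    by_cases h2 : g.left = 1
    · rw [if_pos h2] at h
      exact inc_deg Y h
    · exact absurd (if_neg h2) h

/-- the coboundary matrix -/
def DD (x y : II Y) : (W ⋊[φ] H) →₀ ℤ := Finsupp.ofSupportFinite (dfun φ Y x y) (dfun_finite φ Y x y)

theorem DD_apply (x y : II Y) (g : W ⋊[φ] H) : DD φ Y x y g = dfun φ Y x y g := rfl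

theorem DD_left {x y : II Y} {g : W ⋊[φ] H} (h : DD φ Y x y g ≠ 0) : g.left = 1 := by
  by_contra h2
  exact h (if_neg h2)

theorem DD_inc {x y : II Y} {g : W ⋊[φ] H} (h : DD φ Y x y g ≠ 0) :
    inc Y x.1 (Y.rep x.1 x.2) y.1 (g.right • Y.rep y.1 y.2) ≠ 0 := by
  have h1 := DD_left φ Y h
  rw [DD_apply, dfun, if_pos h1] at h
  exact h

/-! ### functions on all cells -/

/-- the orbit of a cell -/
def orb (i : ℕ) (e : Y.E i) : Fin (Y.c i) := (Y.rep_unique i e).choose

theorem orb_spec (i : ℕ) (e : Y.E i) : ∃ h : H, h • Y.rep i (orb Y i e) = e :=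
  (Y.rep_unique i e).choose_spec.1

theorem orb_eq {i : ℕ} {e : Y.E i} {a : Fin (Y.c i)} {h : H} (he : h • Y.rep i a = e) :
    orb Y i e = a := ((Y.rep_unique i e).choose_spec.2 a ⟨h, he⟩).symm

/-- the group element which moves the representative to the cell -/
def mov (i : ℕ) (e : Y.E i) : H := (orb_spec Y i e).choose

theorem mov_spec (i : ℕ) (e : Y.E i) : mov Y i e • Y.rep i (orb Y i e) = e :=
  (orb_spec Y i e).choose_spec

theorem mov_smul (i : ℕ) (a : Fin (Y.c i)) (h : H) : mov Y i (h • Y.rep i a) = h := by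
  have h1 := mov_spec Y i (h • Y.rep i a)
  rw [orb_eq Y (rfl : h • Y.rep i a = h • Y.rep i a)] at h1
  exact free_inj Y _ h1

theorem orb_smul (i : ℕ) (e : Y.E i) (h : H) : orb Y i (h • e) = orb Y i e := by
  refine orb_eq Y (h := h * mov Y i e) ?_
  rw [mul_smul, mov_spec]

theorem mov_smul' (i : ℕ) (e : Y.E i) (h : H) : mov Y i (h • e) = h * mov Y i e := by
  conv_lhs => rw [← mov_spec Y i e]
  rw [← mul_smul, mov_smul]

/-- the value of `F` at the cell `e`: `F^(e, g) = F (a, h⁻¹ g)` for `e = h • rep a` -/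
def hat (F : II Y × (W ⋊[φ] H) → ℂ) (i : ℕ) (hi : i < Y.len + 1) (e : Y.E i) (g : W ⋊[φ] H) : ℂ :=
  F (⟨⟨i, hi⟩, orb Y i e⟩, (SemidirectProduct.inr (mov Y i e))⁻¹ * g)

theorem hat_rep (F : II Y × (W ⋊[φ] H) → ℂ) (i : ℕ) (hi : i < Y.len + 1) (a : Fin (Y.c i))
    (h : H) (g : W ⋊[φ] H) :
    hat φ Y F i hi (h • Y.rep i a) g = F (⟨⟨i, hi⟩, a⟩, (SemidirectProduct.inr h)⁻¹ * g) := by
  rw [hat, mov_smul, orb_eq Y (rfl : h • Y.rep i a = h • Y.rep i a)]

theorem hat_smul (F : II Y × (W ⋊[φ] H) → ℂ) (i : ℕ) (hi : i < Y.len + 1) (e : Y.E i)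
    (h : H) (g : W ⋊[φ] H) :
    hat φ Y F i hi (h • e) g = hat φ Y F i hi e ((SemidirectProduct.inr h)⁻¹ * g) := by
  rw [hat, hat, mov_smul', orb_smul, map_mul, mul_inv_rev, mul_assoc]

/-- the coboundary in terms of cells, at a representative -/
theorem dop_rep (F : II Y × (W ⋊[φ] H) → ℂ) (i : ℕ) (hi : i + 1 < Y.len + 1) (a : Fin (Y.c (i + 1)))
    (g : W ⋊[φ] H) :
    dop (DD φ Y) F (⟨⟨i + 1, hi⟩, a⟩, g) = (Y.bd i (Y.rep (i + 1) a)).sum fun f n =>
      ((n : ℤ) : ℂ) * hat φ Y F i (by omega) f g := by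
  have hi' : i < Y.len + 1 := by omega
  -- the sum over all pairs (b, h)
  have h1 : dop (DD φ Y) F (⟨⟨i + 1, hi⟩, a⟩, g) = ∑ b : Fin (Y.c i),
      ∑ h ∈ (DD φ Y ⟨⟨i + 1, hi⟩, a⟩ ⟨⟨i, hi'⟩, b⟩).support,
        ((DD φ Y ⟨⟨i + 1, hi⟩, a⟩ ⟨⟨i, hi'⟩, b⟩ h : ℤ) : ℂ) * F (⟨⟨i, hi'⟩, b⟩, h⁻¹ * g) := by
    rw [dop, Fintype.sum_sigma]
    refine Finset.sum_eq_single (⟨i, hi'⟩ : Fin (Y.len + 1)) ?_ ?_
    · intro k _ hk
      refine Finset.sum_eq_zero fun b _ => Finset.sum_eq_zero fun h hh => ?_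
      exfalso
      rw [Finsupp.mem_support_iff] at hh
      have h2 := inc_deg Y (DD_inc φ Y hh)
      apply hk
      apply Fin.ext
      change (k : ℕ) = i
      simp only at h2
      omega
    · intro h; exact absurd (Finset.mem_univ _) h
  rw [h1, Finsupp.sum]
  -- partition the faces by their orbits
  rw [← Finset.sum_fiberwise (Y.bd i (Y.rep (i + 1) a)).support (fun f => orb Y i f)]
  refine Finset.sum_congr rfl fun b _ => ?_
  refine Finset.sum_bij (fun (h : W ⋊[φ] H) _ => h.right • Y.rep i b) ?_ ?_ ?_ ?_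
  · intro h hh
    rw [Finsupp.mem_support_iff] at hh
    have h2 := DD_inc φ Y hh
    rw [Finset.mem_filter, Finsupp.mem_support_iff]
    refine ⟨?_, orb_eq Y rfl⟩
    rw [← inc_succ]
    exact h2
  · intro h hh h' hh' he
    rw [Finsupp.mem_support_iff] at hh hh'
    exact SemidirectProduct.ext ((DD_left φ Y hh).trans (DD_left φ Y hh').symm) (free_inj Y _ he)
  · intro f hf
    rw [Finset.mem_filter, Finsupp.mem_support_iff] at hf
    obtain ⟨hf1, hf2⟩ := hf
    have h3 : mov Y i f • Y.rep i b = f := by rw [← hf2]; exact mov_spec Y i f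
    refine ⟨SemidirectProduct.inr (mov Y i f), ?_, ?_⟩
    · rw [Finsupp.mem_support_iff, DD_apply, dfun, if_pos (SemidirectProduct.left_inr (mov Y i f))]
      change inc Y (i + 1) (Y.rep (i + 1) a) i
        ((SemidirectProduct.inr (mov Y i f) : W ⋊[φ] H).right • Y.rep i b) ≠ 0
      rw [SemidirectProduct.right_inr, h3, inc_succ]
      exact hf1
    · rw [SemidirectProduct.right_inr, h3]
  · intro h hh
    rw [Finsupp.mem_support_iff] at hh
    have h2 := DD_left φ Y hh
    have h4 : h = SemidirectProduct.inr h.right :=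
      SemidirectProduct.ext (by rw [h2, SemidirectProduct.left_inr])
        (by rw [SemidirectProduct.right_inr])
    have h5 : DD φ Y ⟨⟨i + 1, hi⟩, a⟩ ⟨⟨i, hi'⟩, b⟩ h =
        Y.bd i (Y.rep (i + 1) a) (h.right • Y.rep i b) := by
      rw [DD_apply, dfun, if_pos h2]
      exact inc_succ Y i _ _
    rw [h5, hat_rep, ← h4]

theorem dop_zero (F : II Y × (W ⋊[φ] H) → ℂ) (hi : 0 < Y.len + 1) (a : Fin (Y.c 0))
    (g : W ⋊[φ] H) : dop (DD φ Y) F (⟨⟨0, hi⟩, a⟩, g) = 0 := by
  rw [dop]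
  refine Finset.sum_eq_zero fun y _ => Finset.sum_eq_zero fun h hh => ?_
  exfalso
  rw [Finsupp.mem_support_iff] at hh
  exact DD_inc φ Y hh rfl

/-- the coboundary in terms of cells -/
theorem hat_dop (F : II Y × (W ⋊[φ] H) → ℂ) (i : ℕ) (hi : i + 1 < Y.len + 1) (e : Y.E (i + 1))
    (g : W ⋊[φ] H) :
    hat φ Y (dop (DD φ Y) F) (i + 1) hi e g = (Y.bd i e).sum fun f n =>
      ((n : ℤ) : ℂ) * hat φ Y F i (by omega) f g := by
  obtain ⟨a, h, rfl⟩ : ∃ (a : Fin (Y.c (i + 1))) (h : H), h • Y.rep (i + 1) a = e :=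
    ⟨_, orb_spec Y (i + 1) e⟩
  rw [hat_rep, dop_rep, Y.bd_smul, Finsupp.sum_mapDomain_index (by simp) (by intros; push_cast; ring)]
  refine Finsupp.sum_congr fun f _ => ?_
  rw [hat_smul]

end

end Pool.Agent.Q169.ZD
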