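import Pool.Agent.Q169.ZD.Trans

/-!
# Project ZD: exactness of the complex at the weight `1`
-/

set_option autoImplicit false
set_option linter.unusedSectionVars false

namespace Pool.Agent.Q169.ZD

open Pool.Agent.H496R3.ZS (Ell)
open Pool.Agent.TH38.CX (AcyclicGComplex)

noncomputable section

open scoped Classical

variable {B : Type} {M : CoxeterMatrix B} {W : Type} [Group W] (cs : CoxeterSystem M W)
  {H : Type} [Group H] [MulAction H B] (φ : H →* MulAut W)
  (Y : Mirrored H B)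

/-- `𝒰(W, Y)` as an acyclic complex, with names for the cells -/
structure UU where
  U : AcyclicGComplex (W ⋊[φ] H)
  κ : ∀ i, Y.E i → W → U.E i
  surj : ∀ i (x : U.E i), ∃ e w, x = κ i e w
  eq_iff : ∀ i e e' w w', κ i e w = κ i e' w' ↔ e = e' ∧ w⁻¹ * w' ∈ par cs (Y.mir i e)
  smul : ∀ i (g : W ⋊[φ] H) e w, g • κ i e w = κ i (g.right • e) (g.left * φ g.right w)
  bd : ∀ i e w, U.bd i (Finsupp.single (κ (i + 1) e w) 1) =
    (Y.bd i e).mapDomain (fun f => κ i f w)

/-- evaluation of a cochain on a chain -/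
def evc {A : Type} (x : A → ℂ) : (A →₀ ℤ) →+ ℂ :=
  Finsupp.liftAddHom (fun f => (AddMonoidHom.mulRight (x f)).comp (Int.castAddHom ℂ))

theorem evc_apply {A : Type} (x : A → ℂ) (z : A →₀ ℤ) :
    evc x z = z.sum fun f n => ((n : ℤ) : ℂ) * x f := rfl

theorem evc_map {A A' : Type} (x : A' → ℂ) (f : A → A') (z : A →₀ ℤ) :
    evc x (z.mapDomain f) = evc (fun a => x (f a)) z := by
  rw [evc_apply, evc_apply, Finsupp.sum_mapDomain_index (by simp) (by intros; push_cast; ring)]

variable {cs φ Y} (V : UU cs φ Y)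

theorem UU.inj1 (i : ℕ) : Function.Injective (fun f => V.κ i f 1) :=
  fun f f' h => ((V.eq_iff i f f' 1 1).1 h).1

include V in
theorem bdbd (i : ℕ) (e : Y.E (i + 2)) : (Y.bd (i + 1) e).sum (fun f n => n • Y.bd i f) = 0 := by
  have h0 : V.U.bd i (V.U.bd (i + 1) (Finsupp.single (V.κ (i + 2) e 1) 1)) = 0 :=
    (V.U.exact_succ i _).2 ⟨_, rfl⟩
  rw [V.bd] at h0
  have h1 : (Y.bd (i + 1) e).mapDomain (fun f => V.κ (i + 1) f 1) =
      (Y.bd (i + 1) e).sum fun f n => n • Finsupp.single (V.κ (i + 1) f 1) (1 : ℤ) := by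
    rw [Finsupp.mapDomain]
    refine Finsupp.sum_congr fun f _ => ?_
    rw [Finsupp.smul_single, smul_eq_mul, mul_one]
  rw [h1, Finsupp.sum, map_sum] at h0
  have h2 : Finsupp.mapDomain.addMonoidHom (fun f => V.κ i f 1)
      ((Y.bd (i + 1) e).sum (fun f n => n • Y.bd i f)) = (0 : V.U.E i →₀ ℤ) := by
    rw [Finsupp.sum, map_sum, ← h0]
    refine Finset.sum_congr rfl fun f _ => ?_
    rw [map_zsmul, map_zsmul, V.bd]
    rfl
  have h3 : Finsupp.mapDomain (fun f => V.κ i f 1)
      ((Y.bd (i + 1) e).sum (fun f n => n • Y.bd i f)) =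
      Finsupp.mapDomain (fun f => V.κ i f 1) 0 := by
    rw [Finsupp.mapDomain_zero]
    exact h2
  exact Finsupp.mapDomain_injective (V.inj1 i) h3

include V in
theorem D_sq' (F : II Y × (W ⋊[φ] H) → ℂ) : dop (DD φ Y) (dop (DD φ Y) F) = 0 := by
  funext p
  obtain ⟨⟨⟨i, hi⟩, a⟩, g⟩ := p
  cases i with
  | zero => exact dop_zero φ Y _ _ _ _
  | succ i =>
    rw [dop_rep]
    cases i with
    | zero =>
      refine Finset.sum_eq_zero fun f _ => ?_
      change ((Y.bd 0 (Y.rep 1 a) f : ℤ) : ℂ) * dop (DD φ Y) F (⟨⟨0, _⟩, orb Y 0 f⟩, _) = 0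
      rw [dop_zero, mul_zero]
    | succ i =>
      have h1 : ∀ f : Y.E (i + 1), hat φ Y (dop (DD φ Y) F) (i + 1) (by omega) f g =
          evc (fun f' => hat φ Y F i (by omega) f' g) (Y.bd i f) := fun f => hat_dop φ Y F i _ f g
      have h2 := congrArg (evc (fun f' => hat φ Y F i (by omega) f' g)) (bdbd V i (Y.rep (i + 2) a))
      rw [Finsupp.sum, map_sum, map_zero] at h2
      rw [Finsupp.sum]
      refine Eq.trans (Finset.sum_congr rfl fun f _ => ?_) h2
      rw [h1, map_zsmul, zsmul_eq_mul]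

/-- the reflections which fix a cell -/
def TT (cs : CoxeterSystem M W) (φ : H →* MulAut W) (Y : Mirrored H B) (x : II Y) :
    Set (W ⋊[φ] H) :=
  SemidirectProduct.inl '' (cs.simple '' Y.mir x.1 (Y.rep x.1 x.2))

theorem closure_TT (x : II Y) : Subgroup.closure (TT cs φ Y x) =
    (par cs (Y.mir x.1 (Y.rep x.1 x.2))).map SemidirectProduct.inl := by
  rw [TT, par, MonoidHom.map_closure]

variable (hφ : ∀ h b, φ h (cs.simple b) = cs.simple (h • b))
  (hfin : ∀ i (e : Y.E i), Finite (par cs (Y.mir i e)))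
  (E : Ext (W ⋊[φ] H)) (hS : E.S = {s | ∃ b : B, s = ⟨cs.simple b, 1⟩})
  (hl : ∀ g, E.len g = cs.length g.left)

include hφ in
theorem conj_inl (h : H) (b : B) :
    (SemidirectProduct.inr h : W ⋊[φ] H)⁻¹ * SemidirectProduct.inl (cs.simple (h • b)) *
      SemidirectProduct.inr h = SemidirectProduct.inl (cs.simple b) := by
  rw [← hφ, SemidirectProduct.inl_aut, map_inv]
  group

/-- the complex -/
def mkCx : Cx E (II Y) where
  T := TT cs φ Y
  sub x := by
    rintro _ ⟨_, ⟨b, _, rfl⟩, rfl⟩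
    rw [hS]
    exact ⟨b, rfl⟩
  fin x := by
    rw [closure_TT]
    have := hfin x.1 (Y.rep x.1 x.2)
    exact (Set.toFinite ((par cs (Y.mir x.1 (Y.rep x.1 x.2)) : Subgroup W) : Set W)).image _
  deg x := x.1
  D := DD φ Y
  D_len x y h hh := by
    rw [hl, DD_left φ Y hh, cs.length_one]
  D_deg x y h hh := inc_deg Y (DD_inc φ Y hh)
  D_mir x y h hh t ht := by
    obtain ⟨⟨i, hi⟩, a⟩ := x
    obtain ⟨⟨k, hk⟩, b⟩ := y
    have h1 : i = k + 1 := inc_deg Y (DD_inc φ Y hh)
    subst h1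
    have h2 := DD_inc φ Y hh
    change inc Y (k + 1) (Y.rep (k + 1) a) k (h.right • Y.rep k b) ≠ 0 at h2
    rw [inc_succ] at h2
    obtain ⟨_, ⟨c, hc, rfl⟩, rfl⟩ := ht
    have h3 := Y.mir_face k _ _ h2 hc
    rw [Y.mir_smul] at h3
    obtain ⟨c', hc', rfl⟩ := h3
    have h4 : h = SemidirectProduct.inr h.right :=
      SemidirectProduct.ext (by rw [DD_left φ Y hh, SemidirectProduct.left_inr])
        (by rw [SemidirectProduct.right_inr])
    refine ⟨cs.simple c', ⟨c', hc', rfl⟩, ?_⟩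
    rw [h4]
    exact (conj_inl hφ h.right c').symm
  D_sq F := D_sq' V F

/-- invariance -/
theorem inM_one_iff (C : Cx E (II Y)) (F : II Y × (W ⋊[φ] H) → ℂ) :
    InM C (fun _ => 1) F ↔ ∀ j, ∀ u ∈ Subgroup.closure (C.T j), ∀ g, F (j, u * g) = F (j, g) := by
  constructor
  · intro hF j u hu
    have h1 : ∀ t ∈ C.T j, ∀ g, F (j, t * g) = F (j, g) := by
      intro t ht g
      rcases E.len_smul t (C.sub j ht) g with h | h
      · have := hF j t ht g (by omega)
        rw [Real.sqrt_one, Complex.ofReal_one, one_mul] at this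
        exact this
      · have := hF j t ht (t * g) (by rw [← mul_assoc, E.sq t (C.sub j ht), one_mul]; omega)
        rw [← mul_assoc, E.sq t (C.sub j ht), one_mul, Real.sqrt_one, Complex.ofReal_one,
          one_mul] at this
        exact this.symm
    induction hu using Subgroup.closure_induction with
    | mem t ht => exact h1 t ht
    | one => intro g; rw [one_mul]
    | mul x y _ _ hx hy => intro g; rw [mul_assoc, hx, hy]
    | inv x _ hx => intro g; rw [← hx (x⁻¹ * g), mul_inv_cancel_left]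
  · intro hF j t ht g _
    rw [Real.sqrt_one, Complex.ofReal_one, one_mul]
    exact hF j t (Subgroup.subset_closure ht) g

end

end Pool.Agent.Q169.ZD
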