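import Pool.Agent.Q169.ZD.Trans2

/-!
# Project ZD: exactness of the complex at the weight `1`, from exactness for `ℓ²`-cochains
-/

set_option autoImplicit false
set_option linter.unusedSectionVars false

namespace Pool.Agent.Q169.ZD

open Pool.Agent.H496R3.ZS (Ell)
open Pool.Agent.TH38.CX (AcyclicGComplex)

noncomputable section

open scoped Classical

/-! ### square summable functions -/

theorem memlp2_iff {A : Type} (f : A → ℂ) : Memℓp f 2 ↔ Summable fun a => ‖f a‖ ^ 2 := by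
  rw [memℓp_gen_iff (by norm_num : 0 < (2 : ENNReal).toReal)]
  simp

theorem memlp_inj {A A' : Type} {f : A → ℂ} (hf : Memℓp f 2) {g : A' → A}
    (hg : Function.Injective g) : Memℓp (fun a => f (g a)) 2 := by
  rw [memlp2_iff] at hf ⊢
  exact hf.comp_injective hg

/-- functions on a finite disjoint union -/
theorem memlp_prod {J A : Type} [Finite J] {f : J × A → ℂ} (hf : ∀ j, Memℓp (fun a => f (j, a)) 2) :
    Memℓp f 2 := by
  rw [memlp2_iff]
  rw [summable_prod_of_nonneg (fun _ => by positivity)]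
  exact ⟨fun j => (memlp2_iff _).1 (hf j), Summable.of_finite⟩

/-- a section of the orbit map -/
def sec {G X : Type} [Group G] [MulAction G X] (x0 x : X) : G :=
  if h : ∃ g : G, g • x0 = x then h.choose else 1

theorem sec_spec {G X : Type} [Group G] [MulAction G X] (x0 : X) (g : G) :
    (sec x0 (g • x0) : G) • x0 = g • x0 := by
  have h : ∃ g' : G, g' • x0 = g • x0 := ⟨g, rfl⟩
  rw [sec, dif_pos h]
  exact h.choose_spec

theorem sec_mem {G X : Type} [Group G] [MulAction G X] (x0 : X) (g : G) :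
    (sec x0 (g • x0))⁻¹ * g ∈ MulAction.stabilizer G x0 := by
  rw [MulAction.mem_stabilizer_iff, mul_smul, inv_smul_eq_iff, sec_spec]

/-- the injection of `G` into `stabilizer × X` -/
def secInj {G X : Type} [Group G] [MulAction G X] (x0 : X) (g : G) :
    MulAction.stabilizer G x0 × X := (⟨(sec x0 (g⁻¹ • x0))⁻¹ * g⁻¹, sec_mem x0 g⁻¹⟩, g⁻¹ • x0)

theorem secInj_inj {G X : Type} [Group G] [MulAction G X] (x0 : X) :
    Function.Injective (secInj (G := G) x0) := by
  intro g g' h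
  have h2 : g⁻¹ • x0 = g'⁻¹ • x0 := (Prod.mk.inj h).2
  have h1 : (sec x0 (g⁻¹ • x0))⁻¹ * g⁻¹ = (sec x0 (g'⁻¹ • x0))⁻¹ * g'⁻¹ :=
    Subtype.mk.inj (Prod.mk.inj h).1
  rw [h2] at h1
  exact inv_injective (mul_left_cancel h1)

theorem orbA {G X : Type} [Group G] [MulAction G X] (x0 : X)
    (hst : Finite (MulAction.stabilizer G x0)) {c : X → ℝ} (hc : Summable c) (h0 : ∀ x, 0 ≤ c x) :
    Summable (fun g : G => c (g⁻¹ • x0)) := by
  have h3 : Summable fun p : MulAction.stabilizer G x0 × X => c p.2 := by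
    rw [summable_prod_of_nonneg (fun _ => h0 _)]
    exact ⟨fun _ => hc, Summable.of_finite⟩
  have h4 := h3.comp_injective (secInj_inj x0)
  exact h4

/-- pull back along an orbit map with finite stabiliser -/
theorem memlp_orbit {G X : Type} [Group G] [MulAction G X] (x0 : X)
    (hst : Finite (MulAction.stabilizer G x0)) {c : X → ℂ} (hc : Memℓp c 2) :
    Memℓp (fun g : G => c (g⁻¹ • x0)) 2 := by
  have h1 := orbA x0 hst ((memlp2_iff c).1 hc) (fun _ => by positivity)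
  rw [memlp2_iff]
  exact h1

variable {B : Type} {M : CoxeterMatrix B} {W : Type} [Group W] {cs : CoxeterSystem M W}
  {H : Type} [Group H] [MulAction H B] {φ : H →* MulAut W}
  {Y : Mirrored H B} (V : UU cs φ Y)

variable (hφ : ∀ h b, φ h (cs.simple b) = cs.simple (h • b))
  (hfin : ∀ i (e : Y.E i), Finite (par cs (Y.mir i e)))
  (E : Ext (W ⋊[φ] H)) (hS : E.S = {s | ∃ b : B, s = ⟨cs.simple b, 1⟩})
  (hl : ∀ g, E.len g = cs.length g.left)

/-- the cell attached to an element of `II × G` -/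
theorem UU.smul_rep (i : ℕ) (a : Fin (Y.c i)) (w : W) (h : H) :
    ((SemidirectProduct.inl w * SemidirectProduct.inr h : W ⋊[φ] H)) • V.κ i (Y.rep i a) 1 =
      V.κ i (h • Y.rep i a) w := by
  rw [V.smul]
  simp

include hφ in
theorem par_smul (i : ℕ) (h : H) (e : Y.E i) {u : W} (hu : u ∈ par cs (Y.mir i (h • e))) :
    φ h⁻¹ u ∈ par cs (Y.mir i e) := by
  rw [Y.mir_smul] at hu
  induction hu using Subgroup.closure_induction with
  | mem t ht =>
    obtain ⟨_, ⟨b, hb, rfl⟩, rfl⟩ := ht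
    change φ h⁻¹ (cs.simple (h • b)) ∈ _
    rw [hφ, inv_smul_smul]
    exact Subgroup.subset_closure ⟨b, hb, rfl⟩
  | one => rw [map_one]; exact one_mem _
  | mul x y _ _ hx hy => rw [map_mul]; exact mul_mem hx hy
  | inv x _ hx => rw [map_inv]; exact inv_mem hx

include hφ in
/-- values of invariant functions -/
theorem hat_inv {F : II Y × (W ⋊[φ] H) → ℂ}
    (hF : ∀ j, ∀ u ∈ Subgroup.closure (TT cs φ Y j), ∀ g, F (j, u * g) = F (j, g))
    (i : ℕ) (hi : i < Y.len + 1) (e : Y.E i) {w w' : W} (hw : w⁻¹ * w' ∈ par cs (Y.mir i e)) :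
    hat φ Y F i hi e (SemidirectProduct.inl w'⁻¹) = hat φ Y F i hi e (SemidirectProduct.inl w⁻¹) := by
  rw [hat, hat]
  have h1 : (w⁻¹ * w')⁻¹ ∈ par cs (Y.mir i (mov Y i e • Y.rep i (orb Y i e))) := by
    rw [mov_spec]
    exact inv_mem hw
  have h2 := par_smul hφ i (mov Y i e) (Y.rep i (orb Y i e)) h1
  have h3 : (SemidirectProduct.inl (φ (mov Y i e)⁻¹ (w⁻¹ * w')⁻¹) : W ⋊[φ] H) ∈
      Subgroup.closure (TT cs φ Y ⟨⟨i, hi⟩, orb Y i e⟩) := by
    rw [closure_TT]
    exact Subgroup.mem_map_of_mem _ h2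
  refine Eq.trans ?_ (hF _ _ h3 _)
  congr 2
  have h4 : (w'⁻¹ : W) = (w⁻¹ * w')⁻¹ * w⁻¹ := by group
  have h5 : (SemidirectProduct.inl (φ (mov Y i e)⁻¹ (w⁻¹ * w')⁻¹) : W ⋊[φ] H) =
      (SemidirectProduct.inr (mov Y i e))⁻¹ * SemidirectProduct.inl (w⁻¹ * w')⁻¹ *
        SemidirectProduct.inr (mov Y i e) := by
    rw [SemidirectProduct.inl_aut, inv_inv, map_inv SemidirectProduct.inr]
  rw [h5, mul_assoc, mul_inv_cancel_left, mul_assoc, ← map_mul, ← h4]

/-- the cochain on `𝒰(W, Y)` -/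
def cc (F : II Y × (W ⋊[φ] H) → ℂ) (i : ℕ) (hi : i < Y.len + 1) (x : V.U.E i) : ℂ :=
  hat φ Y F i hi (V.surj i x).choose (SemidirectProduct.inl ((V.surj i x).choose_spec.choose)⁻¹)

include hφ in
theorem cc_κ {F : II Y × (W ⋊[φ] H) → ℂ}
    (hF : ∀ j, ∀ u ∈ Subgroup.closure (TT cs φ Y j), ∀ g, F (j, u * g) = F (j, g))
    (i : ℕ) (hi : i < Y.len + 1) (e : Y.E i) (w : W) :
    cc V F i hi (V.κ i e w) = hat φ Y F i hi e (SemidirectProduct.inl w⁻¹) := by
  have h1 := (V.surj i (V.κ i e w)).choose_spec.choose_spec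
  rw [V.eq_iff] at h1
  rw [cc]
  obtain ⟨h1, h2⟩ := h1
  have h3 : ∀ e' : Y.E i, e = e' → ∀ w' : W, w⁻¹ * w' ∈ par cs (Y.mir i e) →
      hat φ Y F i hi e' (SemidirectProduct.inl w'⁻¹) =
      hat φ Y F i hi e (SemidirectProduct.inl w⁻¹) := by
    rintro _ rfl w' hw'
    exact hat_inv hφ hF i hi _ hw'
  exact h3 _ h1 _ h2

include hφ in
/-- the value at the cell `g⁻¹ rep` -/
theorem cc_rep {F : II Y × (W ⋊[φ] H) → ℂ}
    (hF : ∀ j, ∀ u ∈ Subgroup.closure (TT cs φ Y j), ∀ g, F (j, u * g) = F (j, g))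
    (i : ℕ) (hi : i < Y.len + 1) (a : Fin (Y.c i)) (g : W ⋊[φ] H) :
    cc V F i hi (g⁻¹ • V.κ i (Y.rep i a) 1) = F (⟨⟨i, hi⟩, a⟩, g) := by
  have h1 : g⁻¹ = SemidirectProduct.inl g⁻¹.left * SemidirectProduct.inr g⁻¹.right :=
    (SemidirectProduct.inl_left_mul_inr_right g⁻¹).symm
  rw [h1, V.smul_rep, cc_κ V hφ hF, hat_rep, map_inv, ← mul_inv_rev, ← h1, inv_inv]

include hφ in
theorem memlp_cc {F : II Y × (W ⋊[φ] H) → ℂ} (hF2 : Memℓp F 2) (i : ℕ) (hi : i < Y.len + 1) :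
    Memℓp (cc V F i hi) 2 := by
  have h : cc V F i hi = fun x => F ((⟨⟨i, hi⟩, orb Y i (V.surj i x).choose⟩ : II Y),
      (SemidirectProduct.inr (mov Y i (V.surj i x).choose))⁻¹ *
        SemidirectProduct.inl ((V.surj i x).choose_spec.choose)⁻¹) := rfl
  rw [h]
  refine memlp_inj hF2 (g := fun x => ((⟨⟨i, hi⟩, orb Y i (V.surj i x).choose⟩ : II Y),
      (SemidirectProduct.inr (mov Y i (V.surj i x).choose))⁻¹ *
        SemidirectProduct.inl ((V.surj i x).choose_spec.choose)⁻¹)) ?_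
  -- the cell can be recovered
  have key : ∀ x : V.U.E i, ((SemidirectProduct.inr (mov Y i (V.surj i x).choose))⁻¹ *
        SemidirectProduct.inl ((V.surj i x).choose_spec.choose)⁻¹ : W ⋊[φ] H)⁻¹ •
        V.κ i (Y.rep i (orb Y i (V.surj i x).choose)) 1 = x := by
    intro x
    have h1 := (V.surj i x).choose_spec.choose_spec
    conv_rhs => rw [h1]
    rw [mul_inv_rev, map_inv, inv_inv, inv_inv, V.smul_rep, mov_spec]
  intro x x' hx
  rw [Prod.mk.injEq] at hx
  obtain ⟨hx1, hx2⟩ := hx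
  have hx3 : orb Y i (V.surj i x).choose = orb Y i (V.surj i x').choose := by
    have := Sigma.mk.inj_iff.1 hx1
    exact eq_of_heq this.2
  rw [← key x, ← key x', hx2, hx3]

end

end Pool.Agent.Q169.ZD
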