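import Pool.Agent.Q169.ZD.Trans3

/-!
# Project ZD: exactness of the complex at the weight `1`, from exactness for `ℓ²`-cochains
-/

set_option autoImplicit false
set_option linter.unusedSectionVars false

namespace Pool.Agent.Q169.ZD

open Pool.Agent.H496R3.ZS (Ell)
open Pool.Agent.TH38.CX (AcyclicGComplex)

noncomputable section

open scoped Classical

variable {B : Type} {M : CoxeterMatrix B} {W : Type} [Group W] {cs : CoxeterSystem M W}
  {H : Type} [Group H] [MulAction H B] {φ : H →* MulAut W}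
  {Y : Mirrored H B} (V : UU cs φ Y)

variable (hφ : ∀ h b, φ h (cs.simple b) = cs.simple (h • b))
  (hfin : ∀ i (e : Y.E i), Finite (par cs (Y.mir i e)))

/-- invariant functions -/
def Inv' (cs : CoxeterSystem M W) (φ : H →* MulAut W) (Y : Mirrored H B)
    (F : II Y × (W ⋊[φ] H) → ℂ) : Prop :=
  ∀ j, ∀ u ∈ Subgroup.closure (TT cs φ Y j), ∀ g, F (j, u * g) = F (j, g)

theorem stab_iff (x : II Y) (g : W ⋊[φ] H) :
    g • V.κ x.1 (Y.rep x.1 x.2) 1 = V.κ x.1 (Y.rep x.1 x.2) 1 ↔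
      g ∈ Subgroup.closure (TT cs φ Y x) := by
  rw [V.smul, eq_comm, V.eq_iff, closure_TT, map_one, mul_one, inv_one, one_mul]
  constructor
  · rintro ⟨h1, h2⟩
    have h3 : g.right = 1 := Y.free x.1 _ _ h1.symm
    exact ⟨g.left, h2, SemidirectProduct.ext (by rw [SemidirectProduct.left_inl])
      (by rw [SemidirectProduct.right_inl, h3])⟩
  · rintro ⟨u, hu, rfl⟩
    rw [SemidirectProduct.right_inl, SemidirectProduct.left_inl, one_smul]
    exact ⟨rfl, hu⟩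

include hfin in
theorem stab_finite (x : II Y) :
    Finite (MulAction.stabilizer (W ⋊[φ] H) (V.κ x.1 (Y.rep x.1 x.2) 1)) := by
  have h1 : MulAction.stabilizer (W ⋊[φ] H) (V.κ x.1 (Y.rep x.1 x.2) 1) =
      (par cs (Y.mir x.1 (Y.rep x.1 x.2))).map SemidirectProduct.inl := by
    rw [← closure_TT]
    ext g
    rw [MulAction.mem_stabilizer_iff, stab_iff]
  rw [h1]
  have := hfin x.1 (Y.rep x.1 x.2)
  have h2 := (Set.toFinite ((par cs (Y.mir x.1 (Y.rep x.1 x.2)) : Subgroup W) : Set W)).image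
    (SemidirectProduct.inl : W →* W ⋊[φ] H)
  exact h2.to_subtype

include hφ in
/-- the coboundary of the cochain vanishes -/
theorem delta_cc {F : II Y × (W ⋊[φ] H) → ℂ} (hF : Inv' cs φ Y F)
    (hF0 : dop (DD φ Y) F = 0) (i : ℕ) (hi : i < Y.len + 1) (x : V.U.E (i + 1)) :
    evc (cc V F i hi) (V.U.bd i (Finsupp.single x 1)) = 0 := by
  obtain ⟨e, w, rfl⟩ := V.surj (i + 1) x
  have hi1 : i + 1 < Y.len + 1 := by
    by_contra h
    exact (Y.isEmpty (i + 1) (by omega)).false e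
  rw [V.bd, evc_map]
  have h1 : (fun f => cc V F i hi (V.κ i f w)) =
      fun f => hat φ Y F i hi f (SemidirectProduct.inl w⁻¹) := by
    funext f
    exact cc_κ V hφ hF i hi f w
  rw [h1, evc_apply, ← hat_dop φ Y F i hi1 e, hF0, hat]
  rfl

/-- the cochain in terms of `II × G` -/
def back (c' : ∀ i, V.U.E i → ℂ) (p : II Y × (W ⋊[φ] H)) : ℂ :=
  c' p.1.1 (p.2⁻¹ • V.κ p.1.1 (Y.rep p.1.1 p.1.2) 1)

theorem back_inv (c' : ∀ i, V.U.E i → ℂ) : Inv' cs φ Y (back V c') := by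
  intro x u hu g
  rw [back, back]
  have h1 : u⁻¹ • V.κ x.1 (Y.rep x.1 x.2) 1 = V.κ x.1 (Y.rep x.1 x.2) 1 :=
    (stab_iff V x u⁻¹).2 (inv_mem hu)
  rw [mul_inv_rev, mul_smul, h1]

include hfin in
theorem back_memlp (c' : ∀ i, V.U.E i → ℂ) (h : ∀ i, Memℓp (c' i) 2) : Memℓp (back V c') 2 := by
  refine memlp_prod fun x => ?_
  have h2 := memlp_orbit (V.κ x.1 (Y.rep x.1 x.2) 1) (stab_finite V hfin x) (h x.1)
  exact h2

theorem hat_back (c' : ∀ i, V.U.E i → ℂ) (i : ℕ) (hi : i < Y.len + 1) (f : Y.E i)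
    (g : W ⋊[φ] H) :
    hat φ Y (back V c') i hi f g = c' i (V.κ i (g⁻¹.right • f) g⁻¹.left) := by
  have h1 : g⁻¹ = SemidirectProduct.inl g⁻¹.left * SemidirectProduct.inr g⁻¹.right :=
    (SemidirectProduct.inl_left_mul_inr_right g⁻¹).symm
  have h3 : ((SemidirectProduct.inr (mov Y i f))⁻¹ * g : W ⋊[φ] H)⁻¹ •
      V.κ i (Y.rep i (orb Y i f)) 1 = V.κ i (g⁻¹.right • f) g⁻¹.left := by
    rw [mul_inv_rev, inv_inv, h1, mul_assoc, ← map_mul, V.smul_rep, mul_smul, mov_spec]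
    simp
  change c' i (((SemidirectProduct.inr (mov Y i f))⁻¹ * g : W ⋊[φ] H)⁻¹ •
      V.κ i (Y.rep i (orb Y i f)) 1) = _
  rw [h3]

theorem dop_back (c' : ∀ i, V.U.E i → ℂ) (i : ℕ) (hi : i + 1 < Y.len + 1) (a : Fin (Y.c (i + 1)))
    (g : W ⋊[φ] H) : dop (DD φ Y) (back V c') (⟨⟨i + 1, hi⟩, a⟩, g) =
      evc (c' i) (V.U.bd i (Finsupp.single (g⁻¹ • V.κ (i + 1) (Y.rep (i + 1) a) 1) 1)) := by
  have h1 : g⁻¹ = SemidirectProduct.inl g⁻¹.left * SemidirectProduct.inr g⁻¹.right :=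
    (SemidirectProduct.inl_left_mul_inr_right g⁻¹).symm
  have h4 : g⁻¹ • V.κ (i + 1) (Y.rep (i + 1) a) 1 =
      V.κ (i + 1) (g⁻¹.right • Y.rep (i + 1) a) g⁻¹.left := by
    conv_lhs => rw [h1]
    rw [V.smul_rep]
  rw [dop_rep, h4, V.bd, evc_map, Y.bd_smul, evc_map, evc_apply]
  refine Finsupp.sum_congr fun f _ => ?_
  rw [hat_back]

include hφ hfin in
/-- exactness -/
theorem exact_one' (hL : L2Ex V.U.E (fun i => V.U.bd i)) (F : II Y × (W ⋊[φ] H) → ℂ)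
    (hF2 : Memℓp F 2) (hF : Inv' cs φ Y F) (hF0 : dop (DD φ Y) F = 0) :
    ∃ F' : II Y × (W ⋊[φ] H) → ℂ, Memℓp F' 2 ∧ Inv' cs φ Y F' ∧ dop (DD φ Y) F' = F := by
  have h00 : ∀ hi : 0 < Y.len + 1, cc V F 0 hi = 0 := by
    intro hi
    exact hL.1 _ (memlp_cc V hφ hF2 0 hi) (fun e => delta_cc V hφ hF hF0 0 hi e)
  have hprim : ∀ i : ℕ, ∃ c' : V.U.E i → ℂ, Memℓp c' 2 ∧ ∀ hi : i + 1 < Y.len + 1,
      ∀ x : V.U.E (i + 1), cc V F (i + 1) hi x = evc c' (V.U.bd i (Finsupp.single x 1)) := by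
    intro i
    by_cases hi : i + 1 < Y.len + 1
    · obtain ⟨c', h1, h2⟩ := hL.2 i _ (memlp_cc V hφ hF2 (i + 1) hi)
        (fun e => delta_cc V hφ hF hF0 (i + 1) hi e)
      exact ⟨c', h1, fun _ => h2⟩
    · exact ⟨0, zero_memℓp, fun h => absurd h hi⟩
  choose c' hc'2 hc' using hprim
  refine ⟨back V c', back_memlp V hfin c' hc'2, back_inv V c', ?_⟩
  funext p
  obtain ⟨⟨⟨i, hi⟩, a⟩, g⟩ := p
  cases i with
  | zero =>
    rw [dop_zero, ← cc_rep V hφ hF 0 hi a g, h00 hi]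
    rfl
  | succ i => rw [dop_back, ← cc_rep V hφ hF (i + 1) hi a g, hc' i hi]

end

end Pool.Agent.Q169.ZD
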